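import Pool.Agent.H369R3.UT.Defs

set_option autoImplicit false

/-! # Task D1 of project H369-UT: mollification dominates -/

open Set Filter Topology Metric MeasureTheory

namespace Pool.Agent.H369R3.UT.D1H492

theorem kern_nonneg {n : ℕ} (r : ℝ) (w : Cn n) : 0 ≤ kern r w := Real.smoothTransition.nonneg _

theorem kern_zero {n : ℕ} {r : ℝ} (hr : 0 < r) {w : Cn n} (h : r ≤ ‖w‖) : kern r w = 0 := by
  unfold kern
  apply Real.smoothTransition.zero_of_nonpos
  have h1 : 1 ≤ ‖w‖ ^ 2 / r ^ 2 := by
    rw [le_div_iff₀ (by positivity), one_mul]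
    exact pow_le_pow_left₀ hr.le h 2
  linarith

theorem kern_cont {n : ℕ} (r : ℝ) : Continuous (kern (n := n) r) := by
  unfold kern
  apply Real.smoothTransition.continuous.comp
  fun_prop

theorem kern_at_zero {n : ℕ} (r : ℝ) : kern r (0 : Cn n) = 1 := by
  unfold kern
  simp

theorem kern_supp {n : ℕ} {r : ℝ} (hr : 0 < r) : HasCompactSupport (kern (n := n) r) := by
  apply HasCompactSupport.intro (isCompact_closedBall (0 : Cn n) r)
  intro x hx
  apply kern_zero hr
  rw [mem_closedBall, dist_zero_right] at hx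
  exact (not_le.1 hx).le

theorem kern_int {n : ℕ} (μ : Measure (Cn n)) [μ.IsAddHaarMeasure] {r : ℝ} (hr : 0 < r) :
    Integrable (kern (n := n) r) μ := (kern_cont r).integrable_of_hasCompactSupport (kern_supp hr)

theorem kern_pos {n : ℕ} (μ : Measure (Cn n)) [μ.IsAddHaarMeasure] {r : ℝ} (hr : 0 < r) :
    0 < ∫ w, kern (n := n) r w ∂μ := by
  apply (kern_cont r).integral_pos_of_hasCompactSupport_nonneg_nonzero (kern_supp hr)
    (x := 0) (fun w => kern_nonneg r w)
  rw [kern_at_zero]
  exact one_ne_zero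

/-- multiplication by a complex number of norm one -/
noncomputable def rot {n : ℕ} (c : ℂ) : Cn n →ₗ[ℝ] Cn n where
  toFun := fun w => c • w
  map_add' := fun x y => smul_add c x y
  map_smul' := fun t x => by
    simp only [RingHom.id_apply]
    exact smul_comm c t x

theorem map_rot {n : ℕ} (μ : Measure (Cn n)) [μ.IsAddHaarMeasure] (c : ℂ) (hc : ‖c‖ = 1) :
    Measure.map (fun w : Cn n => c • w) μ = μ := by
  have hc0 : c ≠ 0 := by
    intro h
    rw [h] at hc
    simp at hc
  have h1 := Measure.addHaar_image_linearMap μ (rot (n := n) c) (ball 0 1)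
  have h2 : (rot (n := n) c) '' (ball 0 1) = ball 0 1 := by
    ext x
    simp only [mem_image, mem_ball, dist_zero_right]
    constructor
    · rintro ⟨y, hy, rfl⟩
      show ‖c • y‖ < 1
      rw [norm_smul, hc, one_mul]
      exact hy
    · intro hx
      refine ⟨c⁻¹ • x, ?_, ?_⟩
      · rw [norm_smul, norm_inv, hc, inv_one, one_mul]
        exact hx
      · show c • (c⁻¹ • x) = x
        rw [smul_smul, mul_inv_cancel₀ hc0, one_smul]
  rw [h2] at h1
  have h3 : ENNReal.ofReal |LinearMap.det (rot (n := n) c)| = 1 := by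
    have hb0 : μ (ball (0 : Cn n) 1) ≠ 0 := (measure_ball_pos μ 0 one_pos).ne'
    have hb1 : μ (ball (0 : Cn n) 1) ≠ ⊤ := measure_ball_lt_top.ne
    have h4 : 1 * μ (ball (0 : Cn n) 1) =
        ENNReal.ofReal |LinearMap.det (rot (n := n) c)| * μ (ball 0 1) := by
      rw [one_mul]; exact h1
    exact ((ENNReal.mul_left_inj hb0 hb1).1 h4).symm
  have h4 : |LinearMap.det (rot (n := n) c)| = 1 := by
    have := congrArg ENNReal.toReal h3
    rwa [ENNReal.toReal_ofReal (abs_nonneg _), ENNReal.toReal_one] at this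
  have h5 : LinearMap.det (rot (n := n) c) ≠ 0 := by
    intro h
    rw [h] at h4
    simp at h4
  have h6 := Measure.map_linearMap_addHaar_eq_smul_addHaar μ h5
  rw [abs_inv, h4, inv_one, ENNReal.ofReal_one, one_smul] at h6
  exact h6

end Pool.Agent.H369R3.UT.D1H492

namespace Pool.Agent.H369R3.UT

open D1H492

theorem taskD1 : TaskD1 := by
  intro hM n μ _ Ω k u a R hu hR z r hr hz
  obtain ⟨hmeas, hint, C, hC0, hC⟩ := hM n μ Ω k u a R hu hR
  set v : Cn n → ℝ := (closedBall a R).indicator u with hv
  have hpi : 0 < 2 * Real.pi := by positivity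
  have hB : ∀ x, ‖v x‖ ≤ C + |k| := by
    intro x
    by_cases hx : x ∈ closedBall a R
    · rw [hv, indicator_of_mem hx, Real.norm_eq_abs, abs_le]
      have h1 := hu.2.1 x (hR hx)
      have h2 := hC x hx
      have h3 := le_abs_self k
      have h4 := abs_nonneg k
      constructor <;> linarith
    · rw [hv, indicator_of_notMem hx, norm_zero]
      positivity
  have hexp : ∀ θ : ℝ, ‖Complex.exp ((θ : ℂ) * Complex.I)‖ = 1 :=
    fun θ => Complex.norm_exp_ofReal_mul_I θ
  -- pointwise inequality
  have hpt : ∀ w : Cn n, kern r w * u z ≤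
      (2 * Real.pi)⁻¹ * ∫ θ in (0 : ℝ)..(2 * Real.pi), kern r w * v (circ z w θ) := by
    intro w
    by_cases hw : ‖w‖ ≤ r
    · have hdisc : ∀ ζ : ℂ, ‖ζ‖ ≤ 1 → z + ζ • w ∈ closedBall a R := by
        intro ζ hζ
        apply hz
        rw [mem_closedBall, dist_eq_norm, add_sub_cancel_left, norm_smul]
        calc ‖ζ‖ * ‖w‖ ≤ 1 * r := mul_le_mul hζ hw (norm_nonneg _) zero_le_one
          _ = r := one_mul r
      have h1 := hu.2.2 z w (fun ζ hζ => hR (hdisc ζ hζ))
      have h2 : ∀ θ : ℝ, v (circ z w θ) = u (circ z w θ) := by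
        intro θ
        rw [hv]
        exact indicator_of_mem (hdisc _ (hexp θ).le) u
      simp only [h2]
      rw [intervalIntegral.integral_const_mul]
      calc kern r w * u z ≤ kern r w * ((2 * Real.pi)⁻¹ *
            ∫ θ in (0 : ℝ)..(2 * Real.pi), u (circ z w θ)) :=
            mul_le_mul_of_nonneg_left h1 (kern_nonneg r w)
        _ = _ := by ring
    · rw [kern_zero hr (not_le.1 hw).le]
      simp
  -- Fubini
  set ν : Measure ℝ := volume.restrict (Ioc 0 (2 * Real.pi)) with hν
  have hcirc : Continuous (fun p : Cn n × ℝ => circ z p.1 p.2) := by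
    unfold circ
    fun_prop
  have hI2 : Integrable (Function.uncurry fun (w : Cn n) (θ : ℝ) => kern r w * v (circ z w θ))
      (μ.prod ν) := by
    have h1 : Integrable (fun p : Cn n × ℝ => kern r p.1 * (C + |k|)) (μ.prod ν) :=
      (kern_int μ hr).mul_prod (integrable_const (C + |k|))
    refine h1.mono' ?_ ?_
    · apply Measurable.aestronglyMeasurable
      exact ((kern_cont r).measurable.comp measurable_fst).mul
        (hmeas.comp hcirc.measurable)
    · refine Eventually.of_forall fun p => ?_
      show ‖kern r p.1 * v (circ z p.1 p.2)‖ ≤ kern r p.1 * (C + |k|)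
      rw [norm_mul, Real.norm_of_nonneg (kern_nonneg r p.1)]
      exact mul_le_mul_of_nonneg_left (hB _) (kern_nonneg r p.1)
  have hint2 : ∀ w : Cn n, ∫ θ in (0 : ℝ)..(2 * Real.pi), kern r w * v (circ z w θ) =
      ∫ θ, kern r w * v (circ z w θ) ∂ν := fun w => intervalIntegral.integral_of_le hpi.le
  have hrot : ∀ θ : ℝ, ∫ w, kern r w * v (circ z w θ) ∂μ = ∫ w, kern r w * v (z + w) ∂μ := by
    intro θ
    set c : ℂ := Complex.exp ((θ : ℂ) * Complex.I) with hc
    have h1 : (fun w : Cn n => kern r w * v (circ z w θ)) =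
        fun w : Cn n => (fun w => kern r w * v (z + w)) (c • w) := by
      funext w
      have : kern r (c • w) = kern r w := by
        unfold kern
        rw [norm_smul, hexp, one_mul]
      simp only [this]
      rfl
    have h2 : Measurable (fun w : Cn n => kern r w * v (z + w)) :=
      (kern_cont r).measurable.mul (hmeas.comp (continuous_const.add continuous_id).measurable)
    have h3 : Measurable (fun w : Cn n => c • w) := (continuous_const_smul c).measurable
    rw [h1, ← integral_map h3.aemeasurable h2.aestronglyMeasurable, map_rot μ c (hexp θ)]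
  have hmain : (∫ w, kern r w ∂μ) * u z ≤ ∫ w, kern r w * v (z + w) ∂μ := by
    calc (∫ w, kern r w ∂μ) * u z = ∫ w, kern r w * u z ∂μ := (integral_mul_const _ _).symm
      _ ≤ ∫ w, (2 * Real.pi)⁻¹ * ∫ θ, kern r w * v (circ z w θ) ∂ν ∂μ := by
          apply integral_mono ((kern_int μ hr).mul_const _) (hI2.integral_prod_left.const_mul _)
          intro w
          have := hpt w
          rw [hint2] at this
          exact this
      _ = (2 * Real.pi)⁻¹ * ∫ w, ∫ θ, kern r w * v (circ z w θ) ∂ν ∂μ := integral_const_mul _ _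
      _ = (2 * Real.pi)⁻¹ * ∫ θ, ∫ w, kern r w * v (circ z w θ) ∂μ ∂ν := by
          rw [integral_integral_swap hI2]
      _ = (2 * Real.pi)⁻¹ * ∫ _θ, (∫ w, kern r w * v (z + w) ∂μ) ∂ν := by
          simp only [hrot]
      _ = ∫ w, kern r w * v (z + w) ∂μ := by
          rw [integral_const, hν]
          have : (volume.restrict (Ioc 0 (2 * Real.pi))).real univ = 2 * Real.pi := by
            rw [Measure.real, Measure.restrict_apply_univ, Real.volume_Ioc, sub_zero,
              ENNReal.toReal_ofReal hpi.le]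
          rw [this, smul_eq_mul, ← mul_assoc, inv_mul_cancel₀ hpi.ne', one_mul]
  show u z ≤ (∫ w, kern r w ∂μ)⁻¹ * ∫ w, kern r w * v (z + w) ∂μ
  rw [le_inv_mul_iff₀ (kern_pos μ hr)]
  exact hmain

end Pool.Agent.H369R3.UT
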