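import Mathlib

open Cardinal Set Pointwise

namespace Pool.Agent.H492R3.KL

universe u v

/-- Transfinite greedy choice of distinct representatives. -/
theorem exists_sdr {ι Y : Type u} {μ : Cardinal.{u}} (hι : #ι ≤ μ) (S : ι → Set Y)
    (hS : ∀ i, μ ≤ #(S i)) : ∃ x : ι → Y, Function.Injective x ∧ ∀ i, x i ∈ S i := by
  classical
  rcases isEmpty_or_nonempty ι with hE | hN
  · exact ⟨fun i => (hE.false i).elim, fun i => (hE.false i).elim, fun i => (hE.false i).elim⟩
  obtain ⟨i0⟩ := hN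
  have hY : Nonempty Y := by
    have h1 : (1 : Cardinal) ≤ #(S i0) := by
      refine le_trans ?_ ((hι.trans (hS i0)))
      rw [Cardinal.one_le_iff_ne_zero]
      exact Cardinal.mk_ne_zero_iff.mpr ⟨i0⟩
    rw [Cardinal.one_le_iff_ne_zero, Cardinal.mk_ne_zero_iff] at h1
    exact ⟨h1.some.1⟩
  obtain ⟨r, wo, hr⟩ := exists_ord_eq ι
  let x : ι → Y := wo.wf.fix (fun i f => Classical.epsilon (fun y => y ∈ S i ∧ ∀ j (h : r j i), f j h ≠ y))
  have hx : ∀ i, x i = Classical.epsilon (fun y => y ∈ S i ∧ ∀ j (_ : r j i), x j ≠ y) := by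
    intro i
    exact wo.wf.fix_eq _ i
  have hspec : ∀ i, x i ∈ S i ∧ ∀ j (_ : r j i), x j ≠ x i := by
    intro i
    have hex : ∃ y, y ∈ S i ∧ ∀ j (_ : r j i), x j ≠ y := by
      by_contra hcon
      push Not at hcon
      have hsub : S i ⊆ x '' {j | r j i} := by
        intro y hy
        obtain ⟨j, hj, hjy⟩ := hcon y hy
        exact ⟨j, hj, hjy⟩
      have h1 : #(S i) ≤ #{j | r j i} := (Cardinal.mk_le_mk_of_subset hsub).trans Cardinal.mk_image_le
      have h2 : #{j | r j i} < #ι := by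
        have := Cardinal.card_typein_lt (r := r) i hr
        change #{j // r j i} < #ι
        rw [← Ordinal.card_typein]
        exact this
      exact absurd (hι.trans ((hS i).trans h1)) (not_le.mpr h2)
    have := Classical.epsilon_spec hex
    rw [← hx i] at this
    exact this
  refine ⟨x, ?_, fun i => (hspec i).1⟩
  intro i j hij
  rcases trichotomous_of r i j with h | h | h
  · exact absurd hij ((hspec j).2 i h)
  · exact h
  · exact absurd hij.symm ((hspec i).2 j h)

/-- Componentwise version. -/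
theorem exists_sdr_comp {ι Y : Type u} {Z : Type v} {μ : Cardinal.{u}} (c : ι → Z)
    (hc : ∀ z, #{i // c i = z} ≤ μ) (S : ι → Set Y)
    (hS : ∀ i, μ ≤ #(S i)) (hd : ∀ i j y, y ∈ S i → y ∈ S j → c i = c j) :
    ∃ x : ι → Y, Function.Injective x ∧ ∀ i, x i ∈ S i := by
  have h := fun z => exists_sdr (hc z) (fun i => S i.1) (fun i => hS i.1)
  choose f hf1 hf2 using h
  refine ⟨fun i => f (c i) ⟨i, rfl⟩, ?_, fun i => hf2 (c i) ⟨i, rfl⟩⟩
  intro i j hij
  simp only at hij
  have h1 := hf2 (c i) ⟨i, rfl⟩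
  have h2 := hf2 (c j) ⟨j, rfl⟩
  rw [hij] at h1
  have h3 : c i = c j := hd i j _ h1 h2
  have key : ∀ (z z' : Z) (h : z = z') (k : ι) (hk : c k = z), f z ⟨k, hk⟩ = f z' ⟨k, hk.trans h⟩ := by
    intro z z' h k hk
    subst h
    rfl
  have h4 : f (c i) ⟨i, rfl⟩ = f (c i) ⟨j, h3.symm⟩ := by
    rw [hij]
    exact key (c j) (c i) h3.symm j rfl
  have := hf1 (c i) h4
  exact congrArg Subtype.val this

end Pool.Agent.H492R3.KL

namespace Pool.Agent.H492R3.KL

universe u v

variable {G : Type u} [Group G]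

theorem mk_closure_le (s : Set G) : #(Subgroup.closure s) ≤ max #s ℵ₀ := by
  rcases isEmpty_or_nonempty s with hE | hN
  · have : s = ∅ := Set.isEmpty_coe_sort.mp hE
    subst this
    rw [Subgroup.closure_empty]
    refine le_trans ?_ (le_max_right _ _)
    exact Cardinal.mk_le_aleph0
  · have h1 : (FreeGroup.lift (Subtype.val : s → G)).range = Subgroup.closure s := by
      rw [FreeGroup.range_lift_eq_closure]
      simp
    rw [← h1, ← Cardinal.mk_freeGroup]
    exact Cardinal.mk_range_le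

/-- Passing from a disjoint family of large sets to a partition. -/
theorem exists_partition_of_family [Infinite G] (A : G → Set G)
    (hdisj : ∀ i j, i ≠ j → Disjoint (A i) (A j)) (hne : ∀ i, (A i).Nonempty)
    (P : Set G → Prop) (hmono : ∀ s t, s ⊆ t → P s → P t) (hP : ∀ i, P (A i)) :
    ∃ c : Set (Set G), Setoid.IsPartition c ∧ #c = #G ∧ ∀ s ∈ c, P s := by
  classical
  obtain ⟨i0⟩ : Nonempty G := inferInstance
  let B : G → Set G := fun i => if i = i0 then A i0 ∪ (⋃ j, A j)ᶜ else A i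
  have hAB : ∀ i, A i ⊆ B i := by
    intro i
    by_cases h : i = i0
    · subst h; simp [B]
    · simp [B, h]
  have hB0 : B i0 = A i0 ∪ (⋃ j, A j)ᶜ := by simp [B]
  have hBi : ∀ i, i ≠ i0 → B i = A i := by intro i hi; simp [B, hi]
  have hd0 : ∀ i, i ≠ i0 → Disjoint (B i0) (B i) := by
    intro i hi
    rw [hB0, hBi i hi, Set.disjoint_union_left]
    refine ⟨hdisj _ _ (Ne.symm hi), ?_⟩
    rw [Set.disjoint_left]
    intro x hx hx'
    exact hx (Set.mem_iUnion.mpr ⟨i, hx'⟩)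
  have hd : ∀ i j, i ≠ j → Disjoint (B i) (B j) := by
    intro i j hij
    by_cases hi : i = i0
    · subst hi
      exact hd0 j (Ne.symm hij)
    · by_cases hj : j = i0
      · subst hj
        exact (hd0 i hi).symm
      · rw [hBi i hi, hBi j hj]
        exact hdisj i j hij
  have hBne : ∀ i, (B i).Nonempty := fun i => (hne i).mono (hAB i)
  have hBinj : Function.Injective B := by
    intro i j hij
    by_contra hne'
    have h1 := hd i j hne'
    rw [hij, disjoint_self, Set.bot_eq_empty] at h1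
    exact (hBne j).ne_empty h1
  refine ⟨Set.range B, ⟨?_, ?_⟩, ?_, ?_⟩
  · rintro ⟨i, hi⟩
    exact (hBne i).ne_empty hi
  · intro a
    have hex : ∃ i, a ∈ B i := by
      by_cases h : a ∈ ⋃ j, A j
      · obtain ⟨j, hj⟩ := Set.mem_iUnion.mp h
        exact ⟨j, hAB j hj⟩
      · exact ⟨i0, by rw [hB0]; exact Or.inr h⟩
    obtain ⟨i, hi⟩ := hex
    refine ⟨B i, ⟨⟨i, rfl⟩, hi⟩, ?_⟩
    rintro _ ⟨⟨j, rfl⟩, hj⟩
    by_contra hne'
    have : j ≠ i := fun h => hne' (by rw [h])
    exact Set.disjoint_left.mp (hd j i this) hj hi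
  · exact Cardinal.mk_range_eq B hBinj
  · rintro _ ⟨i, rfl⟩
    exact hmono _ _ (hAB i) (hP i)

/-- `A` is left `κ`-large: `G = F A` for some set `F` of fewer than `κ` elements. -/
def LeftLarge (κ : Cardinal.{u}) (A : Set G) : Prop := ∃ F : Set G, #F < κ ∧ F * A = Set.univ

/-- `A` is right `κ`-large: `G = A F` for some set `F` of fewer than `κ` elements. -/
def RightLarge (κ : Cardinal.{u}) (A : Set G) : Prop := ∃ F : Set G, #F < κ ∧ A * F = Set.univ

/-- `A` is `κ`-large: both left and right `κ`-large. -/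
def Large (κ : Cardinal.{u}) (A : Set G) : Prop := LeftLarge κ A ∧ RightLarge κ A

theorem Large.mono {κ : Cardinal.{u}} {A B : Set G} (hAB : A ⊆ B) (h : Large κ A) : Large κ B := by
  obtain ⟨⟨F, hF, h1⟩, ⟨F', hF', h2⟩⟩ := h
  refine ⟨⟨F, hF, ?_⟩, ⟨F', hF', ?_⟩⟩
  · exact Set.eq_univ_of_univ_subset (h1 ▸ Set.mul_subset_mul_left hAB)
  · exact Set.eq_univ_of_univ_subset (h2 ▸ Set.mul_subset_mul_right hAB)

/-- The criterion used in the uncountable case. -/
theorem large_of_subgroup {κ : Cardinal.{u}} (hκ : ℵ₀ ≤ κ) (hG : #G = κ) (K : Subgroup G)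
    (hK : #K < κ) (A : Set G)
    (hl : ∀ g, g ∉ K → ∃ k ∈ K, k * g ∈ A) (hr : ∀ g, g ∉ K → ∃ k ∈ K, g * k ∈ A) :
    A.Nonempty ∧ Large κ A := by
  have hex : ∃ g, g ∉ K := by
    by_contra hcon
    push Not at hcon
    have : #K = #G := by
      have : K = ⊤ := by
        rw [eq_top_iff]; intro g _; exact hcon g
      rw [this]
      exact Cardinal.mk_congr (Subgroup.topEquiv.toEquiv)
    rw [this, hG] at hK
    exact lt_irrefl _ hK
  obtain ⟨g0, hg0⟩ := hex
  obtain ⟨k0, hk0, ha⟩ := hl g0 hg0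
  set a := k0 * g0 with hadef
  refine ⟨⟨a, ha⟩, ⟨?_, ?_⟩⟩
  · refine ⟨(K : Set G) ∪ (fun k => k * a⁻¹) '' (K : Set G), ?_, ?_⟩
    · refine (Cardinal.mk_union_le _ _).trans_lt ?_
      refine Cardinal.add_lt_of_lt hκ hK ?_
      exact Cardinal.mk_image_le.trans_lt hK
    · rw [Set.eq_univ_iff_forall]
      intro g
      by_cases hg : g ∈ K
      · refine ⟨g * a⁻¹, Or.inr ⟨g, hg, rfl⟩, a, ha, ?_⟩
        simp
      · obtain ⟨k, hk, hkg⟩ := hl g hg
        exact ⟨k⁻¹, Or.inl (K.inv_mem hk), k * g, hkg, by simp⟩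
  · refine ⟨(K : Set G) ∪ (fun k => a⁻¹ * k) '' (K : Set G), ?_, ?_⟩
    · refine (Cardinal.mk_union_le _ _).trans_lt ?_
      refine Cardinal.add_lt_of_lt hκ hK ?_
      exact Cardinal.mk_image_le.trans_lt hK
    · rw [Set.eq_univ_iff_forall]
      intro g
      by_cases hg : g ∈ K
      · refine ⟨a, ha, a⁻¹ * g, Or.inr ⟨g, hg, rfl⟩, ?_⟩
        simp
      · obtain ⟨k, hk, hkg⟩ := hr g hg
        exact ⟨g * k, hkg, k⁻¹, Or.inl (K.inv_mem hk), by simp⟩

end Pool.Agent.H492R3.KL
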