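import Pool.Agent.H492R3.KL1

open Cardinal Set Pointwise

namespace Pool.Agent.H492R3.KL

universe u v

variable {G : Type u} [Group G]

/-- A rank function: an injection of `G` onto the ordinals below `(#G).ord`. -/
structure RankFn (rk : G → Ordinal.{u}) : Prop where
  inj : Function.Injective rk
  lt : ∀ g, rk g < (#G).ord
  card : ∀ o, o ≤ (#G).ord → #{g // rk g < o} = o.card

theorem exists_rankFn : ∃ rk : G → Ordinal.{u}, RankFn rk := by
  obtain ⟨r, wo, hr⟩ := exists_ord_eq G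
  refine ⟨fun g => Ordinal.typein r g, ⟨?_, ?_, ?_⟩⟩
  · intro a b h
    exact (Ordinal.typein_inj r).mp h
  · intro g
    rw [hr]
    exact Ordinal.typein_lt_type r g
  · intro o ho
    rcases ho.lt_or_eq with h | h
    · rw [hr] at h
      obtain ⟨x, hx⟩ := Ordinal.typein_surj r h
      rw [← hx, Ordinal.card_typein]
      refine Cardinal.mk_congr (Equiv.subtypeEquivRight ?_)
      intro y
      exact Ordinal.typein_lt_typein r
    · rw [h, Cardinal.card_ord]
      have : ∀ g : G, Ordinal.typein r g < (#G).ord := by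
        intro g; rw [hr]; exact Ordinal.typein_lt_type r g
      exact Cardinal.mk_congr (Equiv.subtypeUnivEquiv this)

/-- The chain of subgroups. -/
def KK (rk : G → Ordinal.{u}) (o : Ordinal.{u}) : Subgroup G := Subgroup.closure {g | rk g < o}

variable {rk : G → Ordinal.{u}}

theorem KK_mono {o o' : Ordinal.{u}} (h : o ≤ o') : KK rk o ≤ KK rk o' := by
  apply Subgroup.closure_mono
  intro g hg
  exact lt_of_lt_of_le hg h

theorem mem_KK_of_lt {g : G} {o : Ordinal.{u}} (h : rk g < o) : g ∈ KK rk o :=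
  Subgroup.subset_closure h

theorem mk_KK_le (hrk : RankFn rk) {o : Ordinal.{u}} (ho : o ≤ (#G).ord) :
    #(KK rk o) ≤ max o.card ℵ₀ := by
  refine (mk_closure_le _).trans ?_
  have := hrk.card o ho
  change max #{g // rk g < o} ℵ₀ ≤ _
  rw [this]

theorem le_mk_KK (hrk : RankFn rk) {o : Ordinal.{u}} (ho : o ≤ (#G).ord) :
    o.card ≤ #(KK rk o) := by
  rw [← hrk.card o ho]
  exact Cardinal.mk_le_mk_of_subset (s := {g | rk g < o}) (t := (KK rk o : Set G))
    Subgroup.subset_closure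

/-- Compactness: membership in `KK o` for `o` a nonzero limit happens at an earlier stage. -/
theorem exists_lt_mem_KK {o : Ordinal.{u}} (h0 : 0 < o) (hs : ∀ a < o, Order.succ a < o) {g : G}
    (hg : g ∈ KK rk o) : ∃ a < o, g ∈ KK rk a := by
  unfold KK at hg
  induction hg using Subgroup.closure_induction with
  | mem x hx => exact ⟨Order.succ (rk x), hs _ hx, mem_KK_of_lt (Order.lt_succ _)⟩
  | one => exact ⟨0, h0, Subgroup.one_mem _⟩
  | mul x y _ _ ihx ihy =>
    obtain ⟨a, ha, hxa⟩ := ihx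
    obtain ⟨b, hb, hyb⟩ := ihy
    exact ⟨max a b, max_lt ha hb, Subgroup.mul_mem _ (KK_mono (le_max_left _ _) hxa)
      (KK_mono (le_max_right _ _) hyb)⟩
  | inv x _ ihx =>
    obtain ⟨a, ha, hxa⟩ := ihx
    exact ⟨a, ha, Subgroup.inv_mem _ hxa⟩

/-- The level of an element. -/
noncomputable def lev (rk : G → Ordinal.{u}) (g : G) : Ordinal.{u} := sInf {o | g ∈ KK rk o}

theorem mem_KK_lev (g : G) : g ∈ KK rk (lev rk g) :=
  csInf_mem (s := {o | g ∈ KK rk o}) ⟨Order.succ (rk g), mem_KK_of_lt (Order.lt_succ _)⟩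

theorem lev_le {g : G} {o : Ordinal.{u}} (h : g ∈ KK rk o) : lev rk g ≤ o :=
  csInf_le' h

theorem mem_KK_iff {g : G} {o : Ordinal.{u}} : g ∈ KK rk o ↔ lev rk g ≤ o :=
  ⟨lev_le, fun h => KK_mono h (mem_KK_lev g)⟩

theorem lev_mul_left {g k : G} {o : Ordinal.{u}} (hk : k ∈ KK rk o) (hg : o < lev rk g) :
    lev rk (k * g) = lev rk g := by
  have key : ∀ p : Ordinal.{u}, o ≤ p → (k * g ∈ KK rk p ↔ g ∈ KK rk p) := by
    intro p hp
    exact Subgroup.mul_mem_cancel_left _ (KK_mono hp hk)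
  apply le_antisymm
  · exact lev_le ((key _ hg.le).mpr (mem_KK_lev g))
  · by_contra hcon
    push Not at hcon
    rcases le_total o (lev rk (k * g)) with h | h
    · exact absurd (lev_le ((key _ h).mp (mem_KK_lev _))) (not_le.mpr hcon)
    · exact absurd (lev_le ((key o le_rfl).mp (KK_mono h (mem_KK_lev _)))) (not_le.mpr hg)

theorem lev_mul_right {g k : G} {o : Ordinal.{u}} (hk : k ∈ KK rk o) (hg : o < lev rk g) :
    lev rk (g * k) = lev rk g := by
  have key : ∀ p : Ordinal.{u}, o ≤ p → (g * k ∈ KK rk p ↔ g ∈ KK rk p) := by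
    intro p hp
    exact Subgroup.mul_mem_cancel_right _ (KK_mono hp hk)
  apply le_antisymm
  · exact lev_le ((key _ hg.le).mpr (mem_KK_lev g))
  · by_contra hcon
    push Not at hcon
    rcases le_total o (lev rk (g * k)) with h | h
    · exact absurd (lev_le ((key _ h).mp (mem_KK_lev _))) (not_le.mpr hcon)
    · exact absurd (lev_le ((key o le_rfl).mp (KK_mono h (mem_KK_lev _)))) (not_le.mpr hg)

/-- The coset of `g` on the given side. -/
def cst (K : Subgroup G) (g : G) (side : Bool) : Set G :=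
  if side then (fun k => k * g) '' (K : Set G) else (fun k => g * k) '' (K : Set G)

theorem mk_cst (K : Subgroup G) (g : G) (side : Bool) : #(cst K g side) = #K := by
  unfold cst
  split_ifs
  · exact Cardinal.mk_image_eq (mul_left_injective g)
  · exact Cardinal.mk_image_eq (mul_right_injective g)

theorem lev_of_mem_cst {g x : G} {o : Ordinal.{u}} {side : Bool} (hg : o < lev rk g)
    (hx : x ∈ cst (KK rk o) g side) : lev rk x = lev rk g := by
  unfold cst at hx
  split_ifs at hx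
  · obtain ⟨k, hk, rfl⟩ := hx
    exact lev_mul_left hk hg
  · obtain ⟨k, hk, rfl⟩ := hx
    exact lev_mul_right hk hg

/-- Successor case. -/
theorem succ_case {lam : Cardinal.{u}} (hlam : ℵ₀ ≤ lam) (hG : #G = Order.succ lam) :
    ∃ c : Set (Set G), Setoid.IsPartition c ∧ #c = #G ∧ ∀ s ∈ c, Large #G s := by
  classical
  have hGinf : ℵ₀ ≤ #G := by rw [hG]; exact hlam.trans (Order.le_succ _)
  have : Infinite G := Cardinal.infinite_iff.mpr hGinf
  obtain ⟨rk, hrk⟩ := exists_rankFn (G := G)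
  let β : G → Ordinal.{u} := fun ξ => max lam.ord (rk ξ)
  have hβlt : ∀ ξ, β ξ < (#G).ord := by
    intro ξ
    refine max_lt ?_ (hrk.lt ξ)
    rw [Cardinal.ord_lt_ord, hG]
    exact Order.lt_succ _
  have hcardlt : ∀ o : Ordinal.{u}, o < (#G).ord → o.card ≤ lam := by
    intro o ho
    rw [Cardinal.lt_ord, hG] at ho
    exact Order.lt_succ_iff.mp ho
  have hKle : ∀ o : Ordinal.{u}, o < (#G).ord → #(KK rk o) ≤ lam := by
    intro o ho
    exact (mk_KK_le hrk ho.le).trans (max_le (hcardlt o ho) hlam)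
  have hKge : ∀ ξ, lam ≤ #(KK rk (β ξ)) := by
    intro ξ
    refine le_trans ?_ (le_mk_KK hrk (hβlt ξ).le)
    rw [← Cardinal.ord_le]
    exact le_max_left _ _
  have hlev : ∀ g : G, lev rk g < (#G).ord := by
    intro g
    refine lt_of_le_of_lt (lev_le (o := Order.succ (rk g)) (mem_KK_of_lt (Order.lt_succ _))) ?_
    exact (Cardinal.isSuccLimit_ord hGinf).succ_lt (hrk.lt g)
  let ι := {p : G × G × Bool // β p.1 < lev rk p.2.1}
  obtain ⟨x, hx1, hx2⟩ := exists_sdr_comp (ι := ι) (Y := G) (μ := lam) (fun i => lev rk i.1.2.1) (by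
    intro z
    by_cases hz : z < (#G).ord
    · have hf : ∀ i : {i : ι // lev rk i.1.2.1 = z}, rk i.1.1.1 < z ∧ i.1.1.2.1 ∈ KK rk z := by
        rintro ⟨⟨⟨ξ, g, s⟩, h⟩, hi⟩
        simp only at h hi ⊢
        refine ⟨?_, ?_⟩
        · rw [← hi]
          exact lt_of_le_of_lt (le_max_right _ _) h
        · rw [mem_KK_iff, hi]
      let F : {i : ι // lev rk i.1.2.1 = z} → {g // rk g < z} × (KK rk z) × ULift.{u} Bool :=
        fun i => (⟨i.1.1.1, (hf i).1⟩, ⟨i.1.1.2.1, (hf i).2⟩, ⟨i.1.1.2.2⟩)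
      have hF : Function.Injective F := by
        rintro ⟨⟨⟨ξ, g, s⟩, h⟩, hi⟩ ⟨⟨⟨ξ', g', s'⟩, h'⟩, hi'⟩ heq
        simp only [F, Prod.mk.injEq, Subtype.mk.injEq, ULift.up.injEq] at heq
        obtain ⟨h1, h2, h3⟩ := heq
        subst h1; subst h2; subst h3
        rfl
      refine (Cardinal.mk_le_of_injective hF).trans ?_
      rw [Cardinal.mk_prod, Cardinal.mk_prod, Cardinal.lift_id, Cardinal.lift_id, Cardinal.lift_id,
        Cardinal.lift_id]
      refine Cardinal.mul_le_of_le hlam ?_ ?_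
      · rw [hrk.card z hz.le]
        exact hcardlt z hz
      · refine Cardinal.mul_le_of_le hlam (hKle z hz) ?_
        exact (Cardinal.mk_le_aleph0).trans hlam
    · have : IsEmpty {i : ι // lev rk i.1.2.1 = z} := by
        refine ⟨fun i => hz ?_⟩
        rw [← i.2]
        exact hlev _
      rw [Cardinal.mk_eq_zero]
      exact zero_le)
    (fun i => cst (KK rk (β i.1.1)) i.1.2.1 i.1.2.2)
    (by intro i; rw [mk_cst]; exact hKge _)
    (by
      intro i j y hi hj
      rw [← lev_of_mem_cst i.2 hi, ← lev_of_mem_cst j.2 hj])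
  let A : G → Set G := fun ξ => {y | ∃ i : ι, i.1.1 = ξ ∧ x i = y}
  have hlarge : ∀ ξ, (A ξ).Nonempty ∧ Large #G (A ξ) := by
    intro ξ
    refine large_of_subgroup hGinf rfl (KK rk (β ξ)) ?_ (A ξ) ?_ ?_
    · refine (hKle _ (hβlt ξ)).trans_lt ?_
      rw [hG]; exact Order.lt_succ _
    · intro g hg
      rw [mem_KK_iff, not_le] at hg
      have h := hx2 ⟨(ξ, g, true), hg⟩
      simp only [cst, if_true] at h
      obtain ⟨k, hk, hkx⟩ := h
      exact ⟨k, hk, ⟨(ξ, g, true), hg⟩, rfl, hkx.symm⟩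
    · intro g hg
      rw [mem_KK_iff, not_le] at hg
      have h := hx2 ⟨(ξ, g, false), hg⟩
      simp only [cst] at h
      obtain ⟨k, hk, hkx⟩ := h
      exact ⟨k, hk, ⟨(ξ, g, false), hg⟩, rfl, hkx.symm⟩
  refine exists_partition_of_family A ?_ (fun i => (hlarge i).1) (Large #G) (fun s t => Large.mono)
    (fun i => (hlarge i).2)
  intro ξ ξ' hne
  rw [Set.disjoint_left]
  rintro y ⟨i, hi, hiy⟩ ⟨j, hj, hjy⟩
  have : i = j := hx1 (hiy.trans hjy.symm)
  exact hne (by rw [← hi, ← hj, this])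

end Pool.Agent.H492R3.KL
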