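import Pool.Agent.H492R3.KL2

open Cardinal Set Pointwise

namespace Pool.Agent.H492R3.KL

universe u v

variable {G : Type u} [Group G]

/-- Double coset of `x` with respect to `K`. -/
def DC (K : Subgroup G) (x : G) : Set G := {y | ∃ a ∈ K, ∃ b ∈ K, y = a * x * b}

theorem mem_DC_self (K : Subgroup G) (x : G) : x ∈ DC K x :=
  ⟨1, K.one_mem, 1, K.one_mem, by simp⟩

theorem DC_symm {K : Subgroup G} {x y : G} (h : y ∈ DC K x) : x ∈ DC K y := by
  obtain ⟨a, ha, b, hb, rfl⟩ := h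
  exact ⟨a⁻¹, K.inv_mem ha, b⁻¹, K.inv_mem hb, by group⟩

theorem DC_trans {K : Subgroup G} {x y z : G} (h : y ∈ DC K x) (h' : z ∈ DC K y) : z ∈ DC K x := by
  obtain ⟨a, ha, b, hb, rfl⟩ := h
  obtain ⟨c, hc, d, hd, rfl⟩ := h'
  exact ⟨c * a, K.mul_mem hc ha, b * d, K.mul_mem hb hd, by group⟩

theorem DC_eq {K : Subgroup G} {x y : G} (h : y ∈ DC K x) : DC K y = DC K x := by
  ext z
  exact ⟨fun hz => DC_trans h hz, fun hz => DC_trans (DC_symm h) hz⟩

theorem DC_mono {K K' : Subgroup G} (hK : K ≤ K') (x : G) : DC K x ⊆ DC K' x := by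
  rintro y ⟨a, ha, b, hb, rfl⟩
  exact ⟨a, hK ha, b, hK hb, rfl⟩

theorem mem_DC_of_DC_eq {K : Subgroup G} {x y : G} (h : DC K y = DC K x) : y ∈ DC K x := by
  rw [← h]; exact mem_DC_self K y

theorem mk_DC_le {K : Subgroup G} {μ : Cardinal.{u}} (hμ : ℵ₀ ≤ μ) (hK : #K ≤ μ) (x : G) :
    #(DC K x) ≤ μ := by
  have hsub : DC K x ⊆ Set.range (fun p : K × K => (p.1 : G) * x * (p.2 : G)) := by
    rintro y ⟨a, ha, b, hb, rfl⟩
    exact ⟨(⟨a, ha⟩, ⟨b, hb⟩), rfl⟩
  refine (Cardinal.mk_le_mk_of_subset hsub).trans (Cardinal.mk_range_le.trans ?_)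
  simp only [Cardinal.mk_prod, Cardinal.lift_id]
  exact Cardinal.mul_le_of_le hμ hK hK

theorem cst_subset_DC (K : Subgroup G) (g : G) (s : Bool) : cst K g s ⊆ DC K g := by
  intro y hy
  unfold cst at hy
  split_ifs at hy
  · obtain ⟨k, hk, rfl⟩ := hy
    exact ⟨k, hk, 1, K.one_mem, by simp⟩
  · obtain ⟨k, hk, rfl⟩ := hy
    exact ⟨1, K.one_mem, k, hk, by simp⟩

theorem mem_cst_self (K : Subgroup G) (g : G) (s : Bool) : g ∈ cst K g s := by
  unfold cst
  split_ifs
  · exact ⟨1, K.one_mem, by simp⟩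
  · exact ⟨1, K.one_mem, by simp⟩

theorem cst_trans {K K' : Subgroup G} (hK : K ≤ K') {g x y : G} {s : Bool} (hx : x ∈ cst K' g s)
    (hy : y ∈ cst K x s) : y ∈ cst K' g s := by
  unfold cst at *
  split_ifs at *
  · obtain ⟨k, hk, rfl⟩ := hx
    obtain ⟨l, hl, rfl⟩ := hy
    exact ⟨l * k, K'.mul_mem (hK hl) hk, by simp [mul_assoc]⟩
  · obtain ⟨k, hk, rfl⟩ := hx
    obtain ⟨l, hl, rfl⟩ := hy
    exact ⟨k * l, K'.mul_mem hk (hK hl), by simp [mul_assoc]⟩

theorem not_mem_of_cst {K : Subgroup G} {g x : G} {s : Bool} (hg : g ∉ K) (hx : x ∈ cst K g s) :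
    x ∉ K := by
  unfold cst at hx
  split_ifs at hx
  · obtain ⟨k, hk, rfl⟩ := hx
    exact fun h => hg ((K.mul_mem_cancel_left hk).mp h)
  · obtain ⟨k, hk, rfl⟩ := hx
    exact fun h => hg ((K.mul_mem_cancel_right hk).mp h)

/-- The subgroup of size `μ`. -/
noncomputable abbrev MM (rk : G → Ordinal.{u}) (μ : Cardinal.{u}) : Subgroup G := KK rk μ.ord

variable {rk : G → Ordinal.{u}}

theorem MM_mono {μ ν : Cardinal.{u}} (h : μ ≤ ν) : MM rk μ ≤ MM rk ν :=
  KK_mono (Cardinal.ord_le_ord.mpr h)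

theorem mk_MM (hrk : RankFn rk) {μ : Cardinal.{u}} (h0 : ℵ₀ ≤ μ) (h1 : μ ≤ #G) : #(MM rk μ) = μ := by
  have h2 : μ.ord ≤ (#G).ord := Cardinal.ord_le_ord.mpr h1
  apply le_antisymm
  · refine (mk_KK_le hrk h2).trans ?_
    rw [Cardinal.card_ord]
    exact max_le le_rfl h0
  · have := le_mk_KK hrk h2
    rwa [Cardinal.card_ord] at this

/-- The cardinal attached to a colour. -/
noncomputable def nu (rk : G → Ordinal.{u}) (ξ : G) : Cardinal.{u} := max ℵ₀ (rk ξ).card

/-- `b` is the least element of `s`. -/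
def IsMn (rk : G → Ordinal.{u}) (s : Set G) (b : G) : Prop := b ∈ s ∧ ∀ y ∈ s, rk b ≤ rk y

theorem exists_isMn {s : Set G} (hs : s.Nonempty) : ∃ b, IsMn rk s b := by
  obtain ⟨b, hb, hmin⟩ := WellFounded.has_min (InvImage.wf rk Ordinal.lt_wf) s hs
  exact ⟨b, hb, fun y hy => not_lt.mp (hmin y hy)⟩

/-- The candidate children. -/
def SS (rk : G → Ordinal.{u}) (ν : Cardinal.{u}) (g : G) (s : Bool) : Set (Set G) :=
  {E | (∃ z ∈ cst (MM rk (Order.succ ν)) g s, E = DC (MM rk ν) z) ∧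
    ∀ b, IsMn rk (DC (MM rk (Order.succ ν)) g) b → E ≠ DC (MM rk ν) b}

theorem le_mk_SS (hrk : RankFn rk) {ν : Cardinal.{u}} (h0 : ℵ₀ ≤ ν) (h1 : Order.succ ν ≤ #G) (g : G)
    (s : Bool) : Order.succ ν ≤ #(SS rk ν g s) := by
  by_contra hcon
  rw [not_le, Order.lt_succ_iff] at hcon
  obtain ⟨b, hb⟩ := exists_isMn (rk := rk) (s := DC (MM rk (Order.succ ν)) g)
    ⟨g, mem_DC_self _ _⟩
  have hν : ν ≤ #G := (Order.le_succ ν).trans h1
  have hsub : cst (MM rk (Order.succ ν)) g s ⊆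
      ⋃₀ (SS rk ν g s ∪ {DC (MM rk ν) b}) := by
    intro z hz
    by_cases hzb : DC (MM rk ν) z = DC (MM rk ν) b
    · exact ⟨DC (MM rk ν) b, Or.inr rfl, by rw [← hzb]; exact mem_DC_self _ _⟩
    · refine ⟨DC (MM rk ν) z, Or.inl ⟨⟨z, hz, rfl⟩, ?_⟩, mem_DC_self _ _⟩
      intro b' hb' heq
      have : b' = b := hrk.inj (le_antisymm (hb'.2 b hb.1) (hb.2 b' hb'.1))
      rw [this] at heq
      exact hzb heq
  have h2 : #(cst (MM rk (Order.succ ν)) g s) = Order.succ ν := by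
    rw [mk_cst]
    exact mk_MM hrk (h0.trans (Order.le_succ _)) h1
  have h3 : #(⋃₀ (SS rk ν g s ∪ {DC (MM rk ν) b})) ≤ ν := by
    refine (Cardinal.mk_sUnion_le _).trans ?_
    refine Cardinal.mul_le_of_le h0 ?_ ?_
    · refine (Cardinal.mk_union_le _ _).trans ?_
      refine Cardinal.add_le_of_le h0 hcon ?_
      rw [Cardinal.mk_singleton]
      exact (Cardinal.one_le_aleph0).trans h0
    · apply ciSup_le'
      rintro ⟨E, hE⟩
      rcases hE with hE | hE
      · obtain ⟨⟨z, _, rfl⟩, _⟩ := hE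
        exact mk_DC_le h0 (mk_MM hrk h0 hν).le z
      · have : E = DC (MM rk ν) b := hE
        subst this
        exact mk_DC_le h0 (mk_MM hrk h0 hν).le b
  have h4 := (Cardinal.mk_le_mk_of_subset hsub).trans h3
  rw [h2] at h4
  exact absurd h4 (not_le.mpr (Order.lt_succ ν))

/-- valid indices -/
def Valid (rk : G → Ordinal.{u}) (ν : Cardinal.{u}) (g : G) (o : Option G) : Prop :=
  g ∉ MM rk (Order.succ ν) ∧ ∀ ξ, o = some ξ → nu rk ξ = ν

theorem exists_children (hrk : RankFn rk) {ν : Cardinal.{u}} (h0 : ℵ₀ ≤ ν)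
    (h1 : Order.succ ν ≤ #G) : ∃ E : G → Bool → Option G → Set G,
      (∀ g s o g' s' o', Valid rk ν g o → Valid rk ν g' o' → E g s o = E g' s' o' → o = o') ∧
      (∀ g s o, Valid rk ν g o → E g s o ∈ SS rk ν g s) := by
  classical
  have hs0 : ℵ₀ ≤ Order.succ ν := h0.trans (Order.le_succ _)
  let ι := {p : G × Bool × Option G // Valid rk ν p.1 p.2.2}
  obtain ⟨x, hx1, hx2⟩ := exists_sdr_comp (ι := ι) (Y := Set G) (μ := Order.succ ν)
    (fun i => DC (MM rk (Order.succ ν)) i.1.1) (by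
      intro z
      rcases isEmpty_or_nonempty {i : ι // DC (MM rk (Order.succ ν)) i.1.1 = z} with hE | ⟨⟨i0, hi0⟩⟩
      · rw [Cardinal.mk_eq_zero]; exact zero_le
      · let F : {i : ι // DC (MM rk (Order.succ ν)) i.1.1 = z} →
            z × ULift.{u} Bool × Option {ξ // rk ξ < (Order.succ ν).ord} :=
          fun i => (⟨i.1.1.1, (Set.ext_iff.mp i.2 _).mp (mem_DC_self _ _)⟩, ⟨i.1.1.2.1⟩,
            match h : i.1.1.2.2 with
            | none => none
            | some ξ => some ⟨ξ, by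
                have := i.1.2.2 ξ h
                rw [Cardinal.lt_ord, Order.lt_succ_iff, ← this]
                exact le_max_right _ _⟩)
        have hF : Function.Injective F := by
          rintro ⟨⟨⟨g, s, o⟩, h⟩, hi⟩ ⟨⟨⟨g', s', o'⟩, h'⟩, hi'⟩ heq
          simp only [F, Prod.mk.injEq, Subtype.mk.injEq, ULift.up.injEq] at heq
          obtain ⟨h1, h2, h3⟩ := heq
          subst h1; subst h2
          have : o = o' := by
            cases o with
            | none => cases o' with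
              | none => rfl
              | some ξ' => simp at h3
            | some ξ => cases o' with
              | none => simp at h3
              | some ξ' => simpa using h3
          subst this
          rfl
        refine (Cardinal.mk_le_of_injective hF).trans ?_
        rw [Cardinal.mk_prod, Cardinal.mk_prod, Cardinal.lift_id, Cardinal.lift_id, Cardinal.lift_id,
          Cardinal.lift_id]
        refine Cardinal.mul_le_of_le hs0 ?_ ?_
        · rw [← hi0]
          exact mk_DC_le hs0 (mk_MM hrk hs0 h1).le _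
        · refine Cardinal.mul_le_of_le hs0 ((Cardinal.mk_le_aleph0).trans hs0) ?_
          rw [Cardinal.mk_option, hrk.card _ (Cardinal.ord_le_ord.mpr h1), Cardinal.card_ord]
          exact Cardinal.add_le_of_le hs0 le_rfl ((Cardinal.one_le_aleph0).trans hs0))
    (fun i => SS rk ν i.1.1 i.1.2.1)
    (by intro i; exact le_mk_SS hrk h0 h1 _ _)
    (by
      rintro i j y ⟨⟨z, hz, hy⟩, _⟩ ⟨⟨z', hz', hy'⟩, _⟩
      have e1 : DC (MM rk (Order.succ ν)) z = DC (MM rk (Order.succ ν)) i.1.1 :=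
        DC_eq (cst_subset_DC _ _ _ hz)
      have e2 : DC (MM rk (Order.succ ν)) z' = DC (MM rk (Order.succ ν)) j.1.1 :=
        DC_eq (cst_subset_DC _ _ _ hz')
      have e3 : z' ∈ DC (MM rk ν) z := mem_DC_of_DC_eq (by rw [← hy, ← hy'])
      have e4 : DC (MM rk (Order.succ ν)) z' = DC (MM rk (Order.succ ν)) z :=
        DC_eq (DC_mono (MM_mono (Order.le_succ ν)) _ e3)
      change DC (MM rk (Order.succ ν)) i.1.1 = DC (MM rk (Order.succ ν)) j.1.1
      rw [← e1, ← e2, e4])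
  refine ⟨fun g s o => if h : Valid rk ν g o then x ⟨(g, s, o), h⟩ else ∅, ?_, ?_⟩
  · intro g s o g' s' o' hv hv' heq
    simp only [dif_pos hv, dif_pos hv'] at heq
    have := hx1 heq
    exact congrArg (fun i : ι => i.1.2.2) this
  · intro g s o hv
    change (if h : Valid rk ν g o then x ⟨(g, s, o), h⟩ else ∅) ∈ _
    rw [dif_pos hv]
    exact hx2 ⟨(g, s, o), hv⟩

end Pool.Agent.H492R3.KL
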