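import Pool.Agent.H492R3.KL3

open Cardinal Set Pointwise

namespace Pool.Agent.H492R3.KL

universe u v

variable {G : Type u} [Group G] {rk : G → Ordinal.{u}}

/-- Limit case. -/
theorem limit_case (hG : ℵ₀ < #G) (hlim : ∀ μ < #G, Order.succ μ < #G) :
    ∃ c : Set (Set G), Setoid.IsPartition c ∧ #c = #G ∧ ∀ s ∈ c, Large #G s := by
  classical
  have hGinf : ℵ₀ ≤ #G := hG.le
  have : Infinite G := Cardinal.infinite_iff.mpr hGinf
  obtain ⟨rk, hrk⟩ := exists_rankFn (G := G)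
  -- children functions for all cardinals
  have hall : ∀ ν : Cardinal.{u}, ∃ E : G → Bool → Option G → Set G, ℵ₀ ≤ ν → ν < #G →
      (∀ g s o g' s' o', Valid rk ν g o → Valid rk ν g' o' → E g s o = E g' s' o' → o = o') ∧
      (∀ g s o, Valid rk ν g o → E g s o ∈ SS rk ν g s) := by
    intro ν
    by_cases h : ℵ₀ ≤ ν ∧ ν < #G
    · obtain ⟨E, hE⟩ := exists_children hrk h.1 (hlim ν h.2).le
      exact ⟨E, fun _ _ => hE⟩
    · exact ⟨fun _ _ _ => ∅, fun h1 h2 => absurd ⟨h1, h2⟩ h⟩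
  choose E hE using hall
  let Used : Cardinal.{u} → Set G → Prop := fun ν X =>
    ∃ g s ξ, Valid rk ν g (some ξ) ∧ E ν g s (some ξ) = X
  let Clean : Cardinal.{u} → G → Prop := fun ν y =>
    ∀ ν', ℵ₀ ≤ ν' → ν' < ν → ¬ Used ν' (DC (MM rk ν') y)
  -- the main claim
  have claim : ∀ ν : Cardinal.{u}, ℵ₀ ≤ ν → ν < #G → ∀ z, z ∉ MM rk ν → ∀ s,
      ∃ y ∈ cst (MM rk ν) z s, Clean ν y := by
    intro ν
    induction ν using WellFoundedLT.induction with
    | ind ν ih =>
    intro h0 h1 z hz s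
    by_cases hsucc : ∃ ν', ℵ₀ ≤ ν' ∧ ν = Order.succ ν'
    · obtain ⟨ν', h0', rfl⟩ := hsucc
      have hlt' : ν' < Order.succ ν' := Order.lt_succ _
      have h1' : ν' < #G := hlt'.trans h1
      have hv : Valid rk ν' z none := ⟨hz, by simp⟩
      obtain ⟨⟨w, hw, hEw⟩, _⟩ := (hE ν' h0' h1').2 z s none hv
      have hw' : w ∉ MM rk ν' := fun h => not_mem_of_cst hz hw (MM_mono hlt'.le h)
      obtain ⟨y, hy, hcl⟩ := ih ν' hlt' h0' h1' w hw' s
      have hDy : DC (MM rk ν') y = DC (MM rk ν') w := DC_eq (cst_subset_DC _ _ _ hy)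
      refine ⟨y, cst_trans (MM_mono hlt'.le) hw hy, ?_⟩
      intro ν'' h0'' hlt''
      rcases (Order.lt_succ_iff.mp hlt'').lt_or_eq with h | h
      · exact hcl ν'' h0'' h
      · subst h
        rintro ⟨g, s', ξ, hval, heq⟩
        rw [hDy, ← hEw] at heq
        have := (hE ν'' h0' h1').1 _ _ _ _ _ _ hval hv heq
        simp at this
    · rcases h0.lt_or_eq with h0lt | h0eq
      swap
      · subst h0eq
        refine ⟨z, mem_cst_self _ _ _, ?_⟩
        intro ν' h0' hlt'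
        exact absurd h0' (not_le.mpr hlt')
      -- ν is an uncountable limit cardinal
      have hνlim : ∀ μ < ν, Order.succ μ < ν := by
        intro μ hμ
        rcases (Order.succ_le_of_lt hμ).lt_or_eq with h | h
        · exact h
        · exfalso
          apply hsucc
          refine ⟨μ, ?_, h.symm⟩
          by_contra hcon
          rw [not_le] at hcon
          have := Order.succ_le_of_lt hcon
          rw [h] at this
          exact absurd h0lt (not_lt.mpr this)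
      obtain ⟨b, hb⟩ := exists_isMn (rk := rk) (s := DC (MM rk ν) z) ⟨z, mem_DC_self _ _⟩
      obtain ⟨a, ha, a', ha', hbe⟩ := hb.1
      have hDb : DC (MM rk ν) b = DC (MM rk ν) z := DC_eq hb.1
      have hbase : ∀ ν'', ℵ₀ ≤ ν'' → ν'' < ν → ¬ Used ν'' (DC (MM rk ν'') b) := by
        rintro ν'' h0'' hlt'' ⟨g, s', ξ, hval, heq⟩
        obtain ⟨⟨w, hw, hEw⟩, hbb⟩ := (hE ν'' h0'' (hlt''.trans h1)).2 g s' (some ξ) hval
        rw [heq] at hEw hbb
        have e1 : b ∈ DC (MM rk ν'') w := mem_DC_of_DC_eq hEw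
        have e2 : DC (MM rk (Order.succ ν'')) w = DC (MM rk (Order.succ ν'')) g :=
          DC_eq (cst_subset_DC _ _ _ hw)
        have e3 : b ∈ DC (MM rk (Order.succ ν'')) g := by
          rw [← e2]
          exact DC_mono (MM_mono (Order.le_succ _)) _ e1
        have e4 : DC (MM rk (Order.succ ν'')) b = DC (MM rk (Order.succ ν'')) g := DC_eq e3
        refine hbb b ⟨e3, ?_⟩ rfl
        intro y hy
        rw [← e4] at hy
        refine hb.2 y ?_
        rw [← hDb]
        exact DC_mono (MM_mono (hνlim _ hlt'').le) _ hy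
      -- compactness
      have hcompact : ∀ k ∈ MM rk ν, ∃ ν', ℵ₀ ≤ ν' ∧ ν' < ν ∧ k ∈ MM rk ν' := by
        intro k hk
        have hl := Cardinal.isSuccLimit_ord h0
        obtain ⟨o, ho, hko⟩ := exists_lt_mem_KK (rk := rk) (o := ν.ord)
          (by
            have := hl.bot_lt
            simpa using this)
          (fun a ha => hl.succ_lt ha) hk
        refine ⟨max ℵ₀ (Order.succ o.card), le_max_left _ _, max_lt h0lt (hνlim _ ?_), ?_⟩
        · rwa [← Cardinal.lt_ord]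
        · refine KK_mono ?_ hko
          refine (Cardinal.lt_ord.mpr ?_).le
          exact lt_of_lt_of_le (Order.lt_succ _) (le_max_right _ _)
      cases s with
      | false =>
        obtain ⟨ν', h0', hlt', hk⟩ := hcompact a⁻¹ (Subgroup.inv_mem _ ha)
        have hz' : a⁻¹ * b ∈ cst (MM rk ν) z false := by
          refine ⟨a', ha', ?_⟩
          rw [hbe]; group
        have hz'' : a⁻¹ * b ∉ MM rk ν' := fun h => not_mem_of_cst hz hz' (MM_mono hlt'.le h)
        obtain ⟨y, hy, hcl⟩ := ih ν' hlt' h0' (hlt'.trans h1) (a⁻¹ * b) hz'' false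
        refine ⟨y, cst_trans (MM_mono hlt'.le) hz' hy, ?_⟩
        intro ν'' h0'' hlt''
        rcases lt_or_ge ν'' ν' with h | h
        · exact hcl ν'' h0'' h
        · have hDy : DC (MM rk ν'') y = DC (MM rk ν'') b := by
            apply DC_eq
            obtain ⟨k, hk', rfl⟩ := hy
            exact ⟨a⁻¹, MM_mono h hk, k, MM_mono h hk', by simp⟩
          rw [hDy]
          exact hbase ν'' h0'' hlt''
      | true =>
        obtain ⟨ν', h0', hlt', hk⟩ := hcompact a'⁻¹ (Subgroup.inv_mem _ ha')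
        have hz' : b * a'⁻¹ ∈ cst (MM rk ν) z true := by
          refine ⟨a, ha, ?_⟩
          rw [hbe]; group
        have hz'' : b * a'⁻¹ ∉ MM rk ν' := fun h => not_mem_of_cst hz hz' (MM_mono hlt'.le h)
        obtain ⟨y, hy, hcl⟩ := ih ν' hlt' h0' (hlt'.trans h1) (b * a'⁻¹) hz'' true
        refine ⟨y, cst_trans (MM_mono hlt'.le) hz' hy, ?_⟩
        intro ν'' h0'' hlt''
        rcases lt_or_ge ν'' ν' with h | h
        · exact hcl ν'' h0'' h
        · have hDy : DC (MM rk ν'') y = DC (MM rk ν'') b := by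
            apply DC_eq
            obtain ⟨k, hk', rfl⟩ := hy
            exact ⟨k, MM_mono h hk', a'⁻¹, MM_mono h hk, by simp [mul_assoc]⟩
          rw [hDy]
          exact hbase ν'' h0'' hlt''
  have hnu0 : ∀ ξ, ℵ₀ ≤ nu rk ξ := fun ξ => le_max_left _ _
  have hnu1 : ∀ ξ, nu rk ξ < #G := by
    intro ξ
    refine max_lt hG ?_
    rw [← Cardinal.lt_ord]
    exact hrk.lt ξ
  let A : G → Set G := fun ξ => {y | Clean (nu rk ξ) y ∧
    ∃ g s, Valid rk (nu rk ξ) g (some ξ) ∧ E (nu rk ξ) g s (some ξ) = DC (MM rk (nu rk ξ)) y}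
  have hmem : ∀ ξ g s, g ∉ MM rk (Order.succ (nu rk ξ)) →
      ∃ y ∈ cst (MM rk (Order.succ (nu rk ξ))) g s, y ∈ A ξ := by
    intro ξ g s hg
    have hv : Valid rk (nu rk ξ) g (some ξ) := ⟨hg, by
      intro ξ' h
      rw [Option.some.injEq] at h
      rw [h]⟩
    obtain ⟨⟨w, hw, hEw⟩, _⟩ := (hE _ (hnu0 ξ) (hnu1 ξ)).2 g s (some ξ) hv
    have hw' : w ∉ MM rk (nu rk ξ) := fun h => not_mem_of_cst hg hw (MM_mono (Order.le_succ _) h)
    obtain ⟨y, hy, hcl⟩ := claim _ (hnu0 ξ) (hnu1 ξ) w hw' s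
    refine ⟨y, cst_trans (MM_mono (Order.le_succ _)) hw hy, hcl, g, s, hv, ?_⟩
    rw [hEw]
    exact (DC_eq (cst_subset_DC _ _ _ hy)).symm
  have hlarge : ∀ ξ, (A ξ).Nonempty ∧ Large #G (A ξ) := by
    intro ξ
    have h1 := hlim _ (hnu1 ξ)
    refine large_of_subgroup hGinf rfl (MM rk (Order.succ (nu rk ξ))) ?_ (A ξ) ?_ ?_
    · rw [mk_MM hrk ((hnu0 ξ).trans (Order.le_succ _)) h1.le]
      exact h1
    · intro g hg
      obtain ⟨y, ⟨k, hk, hky⟩, hyA⟩ := hmem ξ g true hg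
      exact ⟨k, hk, by rw [show k * g = y from hky]; exact hyA⟩
    · intro g hg
      obtain ⟨y, ⟨k, hk, hky⟩, hyA⟩ := hmem ξ g false hg
      exact ⟨k, hk, by rw [show g * k = y from hky]; exact hyA⟩
  refine exists_partition_of_family A ?_ (fun i => (hlarge i).1) (Large #G) (fun s t => Large.mono)
    (fun i => (hlarge i).2)
  intro ξ ξ' hne
  rw [Set.disjoint_left]
  rintro y ⟨hc, g, s, hv, he⟩ ⟨hc', g', s', hv', he'⟩
  rcases lt_trichotomy (nu rk ξ) (nu rk ξ') with h | h | h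
  · exact hc' _ (hnu0 ξ) h ⟨g, s, ξ, hv, he⟩
  · rw [← h] at hv' he'
    have := (hE _ (hnu0 ξ) (hnu1 ξ)).1 _ _ _ _ _ _ hv hv' (he.trans he'.symm)
    exact hne (Option.some.inj this)
  · exact hc _ (hnu0 ξ') h ⟨g', s', ξ', hv', he'⟩

end Pool.Agent.H492R3.KL
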