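import Pool.Agent.H492R3.KL1

open Cardinal Set

namespace Pool.Agent.H492R3.KL

universe u v

/-- maximal independent set of a relation -/
theorem exists_max_indep {α : Type u} (r : α → α → Prop) (hsymm : ∀ x y, r x y → r y x)
    (hrefl : ∀ x, r x x) :
    ∃ S : Set α, (∀ x ∈ S, ∀ y ∈ S, x ≠ y → ¬ r x y) ∧ ∀ x, ∃ y ∈ S, r x y := by
  obtain ⟨S, hS⟩ := zorn_subset {S : Set α | ∀ x ∈ S, ∀ y ∈ S, x ≠ y → ¬ r x y} (by
    intro c hc hchain
    refine ⟨⋃₀ c, ?_, fun s hs => Set.subset_sUnion_of_mem hs⟩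
    rintro x ⟨s, hs, hx⟩ y ⟨t, ht, hy⟩ hne
    rcases hchain.total hs ht with h | h
    · exact hc ht x (h hx) y hy hne
    · exact hc hs x hx y (h hy) hne)
  refine ⟨S, hS.prop, ?_⟩
  intro x
  by_contra hcon
  push Not at hcon
  have h1 : insert x S ∈ {S : Set α | ∀ x ∈ S, ∀ y ∈ S, x ≠ y → ¬ r x y} := by
    rintro a ha b hb hne
    rcases Set.mem_insert_iff.mp ha with ha2 | ha2
    · rcases Set.mem_insert_iff.mp hb with hb2 | hb2
      · exact absurd (ha2.trans hb2.symm) hne
      · rw [ha2]; exact hcon b hb2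
    · rcases Set.mem_insert_iff.mp hb with hb2 | hb2
      · rw [hb2]; exact fun h => hcon a ha2 (hsymm _ _ h)
      · exact hS.prop a ha2 b hb2 hne
  have h2 : insert x S ⊆ S := hS.le_of_ge h1 (Set.subset_insert x S)
  exact hcon x (h2 (Set.mem_insert x S)) (hrefl x)

variable {G : Type u} [Group G]

/-- finitely large, in terms of a common finite set -/
def FL (A : Set G) : Prop :=
  ∃ F : Finset G, (∀ g, ∃ f ∈ F, f * g ∈ A) ∧ (∀ g, ∃ f ∈ F, g * f ∈ A)

theorem FL.large {A : Set G} (h : FL A) : Large ℵ₀ A := by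
  classical
  obtain ⟨F, h1, h2⟩ := h
  refine ⟨⟨(fun x => x⁻¹) '' (F : Set G), ?_, ?_⟩, ⟨(fun x => x⁻¹) '' (F : Set G), ?_, ?_⟩⟩
  · exact Cardinal.lt_aleph0_iff_set_finite.mpr (F.finite_toSet.image _)
  · rw [Set.eq_univ_iff_forall]
    intro g
    obtain ⟨f, hf, hfg⟩ := h1 g
    exact ⟨f⁻¹, ⟨f, hf, rfl⟩, f * g, hfg, by simp⟩
  · exact Cardinal.lt_aleph0_iff_set_finite.mpr (F.finite_toSet.image _)
  · rw [Set.eq_univ_iff_forall]
    intro g
    obtain ⟨f, hf, hfg⟩ := h2 g
    exact ⟨g * f, hfg, f⁻¹, ⟨f, hf, rfl⟩, by simp⟩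

theorem exists_spread [Infinite G] (F : Finset G) (n : ℕ) : ∃ E : Finset G, E.card = n ∧
    (∀ e ∈ E, ∀ e' ∈ E, ∀ f ∈ F, ∀ f' ∈ F, f * e = f' * e' → e = e') ∧
    (∀ e ∈ E, ∀ e' ∈ E, ∀ f ∈ F, ∀ f' ∈ F, e * f = e' * f' → e = e') := by
  classical
  induction n with
  | zero => exact ⟨∅, by simp⟩
  | succ n ih =>
    obtain ⟨E, hE, h1, h2⟩ := ih
    let bad : Finset G := E ∪ ((F ×ˢ F ×ˢ E).image (fun p => p.1⁻¹ * p.2.1 * p.2.2)) ∪
      ((F ×ˢ F ×ˢ E).image (fun p => p.2.2 * p.2.1 * p.1⁻¹))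
    obtain ⟨x, hx⟩ := Infinite.exists_notMem_finset bad
    simp only [bad, Finset.mem_union, Finset.mem_image, Finset.mem_product, not_or, not_exists,
      not_and, Prod.forall] at hx
    obtain ⟨⟨hx1, hx2⟩, hx3⟩ := hx
    refine ⟨insert x E, by rw [Finset.card_insert_of_notMem hx1, hE], ?_, ?_⟩
    · intro e he e' he' f hf f' hf' heq
      rcases Finset.mem_insert.mp he with he2 | he2
      · rcases Finset.mem_insert.mp he' with he2' | he2'
        · rw [he2, he2']
        · exfalso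
          refine hx2 f f' e' ⟨hf, hf', he2'⟩ ?_
          rw [mul_assoc, ← heq, ← he2]; simp
      · rcases Finset.mem_insert.mp he' with he2' | he2'
        · exfalso
          refine hx2 f' f e ⟨hf', hf, he2⟩ ?_
          rw [mul_assoc, heq, ← he2']; simp
        · exact h1 e he2 e' he2' f hf f' hf' heq
    · intro e he e' he' f hf f' hf' heq
      rcases Finset.mem_insert.mp he with he2 | he2
      · rcases Finset.mem_insert.mp he' with he2' | he2'
        · rw [he2, he2']
        · exfalso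
          refine hx3 f f' e' ⟨hf, hf', he2'⟩ ?_
          rw [← heq, ← he2]; simp
      · rcases Finset.mem_insert.mp he' with he2' | he2'
        · exfalso
          refine hx3 f' f e ⟨hf', hf, he2⟩ ?_
          rw [heq, ← he2']; simp
        · exact h2 e he2 e' he2' f hf f' hf' heq

/-- A finitely large set splits into two finitely large sets. -/
theorem FL.split [Infinite G] {R : Set G} (hR : FL R) : ∃ B ⊆ R, FL B ∧ FL (R \ B) := by
  classical
  obtain ⟨F, hF1, hF2⟩ := hR
  obtain ⟨E, hE, hE1, hE2⟩ := exists_spread F 4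
  let P : Finset G := (F ×ˢ E).image (fun p => p.1 * p.2)
  let Q : Finset G := (E ×ˢ F).image (fun p => p.1 * p.2)
  let bl : G → Finset G := fun g => (P.image (fun p => p * g)).filter (fun y => y ∈ R)
  let br : G → Finset G := fun g => (Q.image (fun q => g * q)).filter (fun y => y ∈ R)
  have hbl : ∀ g, 4 ≤ (bl g).card := by
    intro g
    choose f hf hfg using fun e : G => hF1 (e * g)
    rw [← hE]
    refine Finset.card_le_card_of_injOn (fun e => f e * (e * g)) ?_ ?_
    · intro e he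
      simp only [bl, P, Finset.coe_filter, Finset.mem_image, Finset.mem_product, Set.mem_ofPred_eq]
      refine ⟨⟨f e * e, ⟨(f e, e), ⟨hf e, he⟩, rfl⟩, by rw [mul_assoc]⟩, hfg e⟩
    · intro e he e' he' heq
      simp only at heq
      rw [← mul_assoc, ← mul_assoc] at heq
      exact hE1 e he e' he' (f e) (hf e) (f e') (hf e') (mul_right_cancel heq)
  have hbr : ∀ g, 4 ≤ (br g).card := by
    intro g
    choose f hf hfg using fun e : G => hF2 (g * e)
    rw [← hE]
    refine Finset.card_le_card_of_injOn (fun e => (g * e) * f e) ?_ ?_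
    · intro e he
      simp only [br, Q, Finset.coe_filter, Finset.mem_image, Finset.mem_product, Set.mem_ofPred_eq]
      refine ⟨⟨e * f e, ⟨(e, f e), ⟨he, hf e⟩, rfl⟩, by rw [mul_assoc]⟩, hfg e⟩
    · intro e he e' he' heq
      simp only at heq
      rw [mul_assoc, mul_assoc] at heq
      exact hE2 e he e' he' (f e) (hf e) (f e') (hf e') (mul_left_cancel heq)
  have hPne : P.Nonempty := by
    have := hbl 1
    have h2 : (bl 1).Nonempty := Finset.card_pos.mp (by omega)
    obtain ⟨y, hy⟩ := h2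
    simp only [bl, Finset.mem_filter, Finset.mem_image] at hy
    obtain ⟨⟨p, hp, _⟩, _⟩ := hy
    exact ⟨p, hp⟩
  have hQne : Q.Nonempty := by
    have := hbr 1
    have h2 : (br 1).Nonempty := Finset.card_pos.mp (by omega)
    obtain ⟨y, hy⟩ := h2
    simp only [br, Finset.mem_filter, Finset.mem_image] at hy
    obtain ⟨⟨p, hp, _⟩, _⟩ := hy
    exact ⟨p, hp⟩
  obtain ⟨S, hS1, hS2⟩ := exists_max_indep (fun g h : G => ∃ p ∈ P, ∃ p' ∈ P, p * g = p' * h)
    (by rintro x y ⟨p, hp, p', hp', h⟩; exact ⟨p', hp', p, hp, h.symm⟩)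
    (by intro x; obtain ⟨p, hp⟩ := hPne; exact ⟨p, hp, p, hp, rfl⟩)
  obtain ⟨T, hT1, hT2⟩ := exists_max_indep (fun g h : G => ∃ p ∈ Q, ∃ p' ∈ Q, g * p = h * p')
    (by rintro x y ⟨p, hp, p', hp', h⟩; exact ⟨p', hp', p, hp, h.symm⟩)
    (by intro x; obtain ⟨p, hp⟩ := hQne; exact ⟨p, hp, p, hp, rfl⟩)
  let t : ((S ⊕ T) × Bool) → Finset G := fun i => Sum.elim (fun s : S => bl s) (fun s : T => br s) i.1
  have hall : ∀ J : Finset ((S ⊕ T) × Bool), J.card ≤ (J.biUnion t).card := by
    intro J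
    let V := J.image Prod.fst
    have h1 : J.card ≤ 2 * V.card := by
      have : J ⊆ V ×ˢ (Finset.univ : Finset Bool) := by
        intro i hi
        rw [Finset.mem_product]
        exact ⟨Finset.mem_image_of_mem _ hi, Finset.mem_univ _⟩
      refine (Finset.card_le_card this).trans ?_
      rw [Finset.card_product]
      simp [mul_comm]
    have hsub : V.biUnion (fun v => Sum.elim (fun s : S => bl s) (fun s : T => br s) v) ⊆ J.biUnion t := by
      intro y hy
      rw [Finset.mem_biUnion] at hy ⊢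
      obtain ⟨v, hv, hy⟩ := hy
      obtain ⟨i, hi, rfl⟩ := Finset.mem_image.mp hv
      exact ⟨i, hi, hy⟩
    have h2 : 4 * V.toLeft.card ≤ (J.biUnion t).card := by
      refine le_trans ?_ (Finset.card_le_card hsub)
      have hsub' : V.toLeft.biUnion (fun s => bl s) ⊆
          V.biUnion (fun v => Sum.elim (fun s : S => bl s) (fun s : T => br s) v) := by
        intro y hy
        rw [Finset.mem_biUnion] at hy ⊢
        obtain ⟨s, hs, hy⟩ := hy
        exact ⟨Sum.inl s, Finset.mem_toLeft.mp hs, hy⟩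
      refine le_trans ?_ (Finset.card_le_card hsub')
      rw [Finset.card_biUnion]
      · rw [mul_comm, ← smul_eq_mul]
        exact Finset.card_nsmul_le_sum _ _ _ (fun s _ => hbl s)
      · intro s hs s' hs' hne
        change Disjoint (bl s) (bl s')
        rw [Finset.disjoint_left]
        intro y hy hy'
        simp only [bl, Finset.mem_filter, Finset.mem_image] at hy hy'
        obtain ⟨⟨p, hp, rfl⟩, _⟩ := hy
        obtain ⟨⟨p', hp', heq⟩, _⟩ := hy'
        exact hS1 s s.2 s' s'.2 (fun h => hne (Subtype.ext h)) ⟨p, hp, p', hp', heq.symm⟩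
    have h3 : 4 * V.toRight.card ≤ (J.biUnion t).card := by
      refine le_trans ?_ (Finset.card_le_card hsub)
      have hsub' : V.toRight.biUnion (fun s => br s) ⊆
          V.biUnion (fun v => Sum.elim (fun s : S => bl s) (fun s : T => br s) v) := by
        intro y hy
        rw [Finset.mem_biUnion] at hy ⊢
        obtain ⟨s, hs, hy⟩ := hy
        exact ⟨Sum.inr s, Finset.mem_toRight.mp hs, hy⟩
      refine le_trans ?_ (Finset.card_le_card hsub')
      rw [Finset.card_biUnion]
      · rw [mul_comm, ← smul_eq_mul]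
        exact Finset.card_nsmul_le_sum _ _ _ (fun s _ => hbr s)
      · intro s hs s' hs' hne
        change Disjoint (br s) (br s')
        rw [Finset.disjoint_left]
        intro y hy hy'
        simp only [br, Finset.mem_filter, Finset.mem_image] at hy hy'
        obtain ⟨⟨p, hp, rfl⟩, _⟩ := hy
        obtain ⟨⟨p', hp', heq⟩, _⟩ := hy'
        exact hT1 s s.2 s' s'.2 (fun h => hne (Subtype.ext h)) ⟨p, hp, p', hp', heq.symm⟩
    have h4 := Finset.card_toLeft_add_card_toRight (u := V)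
    omega
  obtain ⟨x, hx1, hx2⟩ := (Finset.all_card_le_biUnion_card_iff_exists_injective t).mp hall
  have hxR : ∀ i, x i ∈ R := by
    rintro ⟨s | s, b⟩
    · exact (Finset.mem_filter.mp (hx2 (Sum.inl s, b))).2
    · exact (Finset.mem_filter.mp (hx2 (Sum.inr s, b))).2
  have hFL : ∀ (b : Bool) (A : Set G), (∀ v, x (v, b) ∈ A) → FL A := by
    intro b A hA
    refine ⟨((P ×ˢ P ×ˢ P).image (fun p => p.1 * p.2.1⁻¹ * p.2.2)) ∪
      ((Q ×ˢ Q ×ˢ Q).image (fun p => p.1 * p.2.1⁻¹ * p.2.2)), ?_, ?_⟩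
    · intro g
      obtain ⟨s, hs, p, hp, p', hp', heq⟩ := hS2 g
      have h1 := hx2 (Sum.inl ⟨s, hs⟩, b)
      simp only [t, Sum.elim_inl, bl, Finset.mem_filter, Finset.mem_image] at h1
      obtain ⟨⟨p'', hp'', h2⟩, _⟩ := h1
      refine ⟨p'' * p'⁻¹ * p, ?_, ?_⟩
      · refine Finset.mem_union_left _ (Finset.mem_image.mpr ⟨(p'', p', p), ?_, rfl⟩)
        simp [hp, hp', hp'']
      · have : p'' * p'⁻¹ * p * g = p'' * s := by
          rw [mul_assoc _ p g, heq]; simp
        rw [this, h2]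
        exact hA _
    · intro g
      obtain ⟨s, hs, p, hp, p', hp', heq⟩ := hT2 g
      have h1 := hx2 (Sum.inr ⟨s, hs⟩, b)
      simp only [t, Sum.elim_inr, br, Finset.mem_filter, Finset.mem_image] at h1
      obtain ⟨⟨p'', hp'', h2⟩, _⟩ := h1
      refine ⟨p * p'⁻¹ * p'', ?_, ?_⟩
      · refine Finset.mem_union_right _ (Finset.mem_image.mpr ⟨(p, p', p''), ?_, rfl⟩)
        simp [hp, hp', hp'']
      · have : g * (p * p'⁻¹ * p'') = s * p'' := by
          rw [← mul_assoc, ← mul_assoc, heq]; simp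
        rw [this, h2]
        exact hA _
  refine ⟨{y | ∃ v, x (v, true) = y}, ?_, ?_, ?_⟩
  · rintro y ⟨v, rfl⟩
    exact hxR _
  · exact hFL true _ (fun v => ⟨v, rfl⟩)
  · refine hFL false _ (fun v => ⟨hxR _, ?_⟩)
    rintro ⟨v', h⟩
    have := hx1 h
    simp at this

/-- The countable case. -/
theorem countable_case (hG : #G = ℵ₀) :
    ∃ c : Set (Set G), Setoid.IsPartition c ∧ #c = #G ∧ ∀ s ∈ c, Large #G s := by
  classical
  have : Infinite G := Cardinal.infinite_iff.mpr hG.ge
  have : Countable G := Cardinal.mk_le_aleph0_iff.mp hG.le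
  have hden : Nonempty (G ≃ ℕ) := by
    have : Denumerable G := (Cardinal.denumerable_iff.mpr hG).some
    exact ⟨Denumerable.eqv G⟩
  obtain ⟨e⟩ := hden
  choose! B hB1 hB2 hB3 using fun (R : Set G) (hR : FL R) => hR.split
  let Rs : ℕ → Set G := fun n => Nat.rec Set.univ (fun _ R => R \ B R) n
  have hRs : ∀ n, Rs (n + 1) = Rs n \ B (Rs n) := fun n => rfl
  have hFLR : ∀ n, FL (Rs n) := by
    intro n
    induction n with
    | zero => exact ⟨{1}, fun g => ⟨1, by simp, Set.mem_univ _⟩, fun g => ⟨1, by simp, Set.mem_univ _⟩⟩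
    | succ n ih => rw [hRs]; exact hB3 _ ih
  have hanti : Antitone Rs := antitone_nat_of_succ_le (fun n => by
    rw [hRs]; exact Set.sdiff_subset)
  have hdis : ∀ m n, m < n → Disjoint (B (Rs m)) (B (Rs n)) := by
    intro m n hmn
    rw [Set.disjoint_left]
    intro y hy hy'
    have h1 : y ∈ Rs n := hB1 _ (hFLR n) hy'
    have h2 : y ∈ Rs (m + 1) := hanti hmn h1
    rw [hRs] at h2
    exact h2.2 hy
  have hlarge : ∀ n, Large #G (B (Rs n)) := by
    intro n
    rw [hG]
    exact (hB2 _ (hFLR n)).large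
  have hne : ∀ n, (B (Rs n)).Nonempty := by
    intro n
    obtain ⟨F, h1, _⟩ := hB2 _ (hFLR n)
    obtain ⟨f, _, hf⟩ := h1 1
    exact ⟨_, hf⟩
  refine exists_partition_of_family (fun g => B (Rs (e g))) ?_ (fun g => hne _) (Large #G)
    (fun s t => Large.mono) (fun g => hlarge _)
  intro g h hgh
  rcases lt_trichotomy (e g) (e h) with h1 | h1 | h1
  · exact hdis _ _ h1
  · exact absurd (e.injective h1) hgh
  · exact (hdis _ _ h1).symm

end Pool.Agent.H492R3.KL
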