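import Mathlib

/-!
# Words that are trace equivalent to a cube in characteristic two

For `a, b` in `SL(2, F)`, `F` of characteristic `2`, with `tr a = tr b`, the product
`a⁶ b² a² b³ a b` has the same trace as the cube `(a³ b²)³`.
-/

open Matrix
open scoped MatrixGroups

namespace Pool.Agent.H492R3.PW

section algebra

variable {R : Type*} [CommRing R]

/-- The combination `e0 + e1 a + e2 b + e3 a b`. -/
def comb (a b : Matrix (Fin 2) (Fin 2) R) (e0 e1 e2 e3 : R) : Matrix (Fin 2) (Fin 2) R :=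
  e0 • (1 : Matrix (Fin 2) (Fin 2) R) + e1 • a + e2 • b + e3 • (a * b)

lemma comb_mul_a {a b : Matrix (Fin 2) (Fin 2) R} {s c : R}
    (haa : a * a = s • a - 1) (hba : b * a = -(a * b) + s • a + s • b - c • 1)
    (e0 e1 e2 e3 : R) :
    comb a b e0 e1 e2 e3 * a =
      comb a b (-e1 - c * e2 - s * e3) (e0 + s * e1 + s * e2 + (s ^ 2 - c) * e3)
        (s * e2 + e3) (-e2) := by
  have h3 : a * b * a = (-s) • (1 : Matrix (Fin 2) (Fin 2) R) + (s ^ 2 - c) • a + b := by
    rw [mul_assoc, hba, mul_sub, mul_add, mul_add, mul_neg, ← mul_assoc, haa, mul_smul_comm,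
      mul_smul_comm, mul_smul_comm, haa, sub_mul, smul_mul_assoc, mul_one, one_mul]
    module
  unfold comb
  rw [add_mul, add_mul, add_mul, smul_mul_assoc, smul_mul_assoc, smul_mul_assoc, smul_mul_assoc,
    h3, hba, haa, one_mul]
  module

lemma comb_mul_b {a b : Matrix (Fin 2) (Fin 2) R} {s : R}
    (hbb : b * b = s • b - 1) (e0 e1 e2 e3 : R) :
    comb a b e0 e1 e2 e3 * b =
      comb a b (-e2) (-e3) (e0 + s * e2) (e1 + s * e3) := by
  have h3 : a * b * b = s • (a * b) - a := by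
    rw [mul_assoc, hbb, mul_sub, mul_smul_comm, mul_one]
  unfold comb
  rw [add_mul, add_mul, add_mul, smul_mul_assoc e0 1 b, smul_mul_assoc e1 a b,
    smul_mul_assoc e2 b b, smul_mul_assoc e3 (a * b) b, h3, hbb, one_mul]
  module

lemma trace_comb (a b : Matrix (Fin 2) (Fin 2) R) (s c : R) (ha : a.trace = s) (hb : b.trace = s)
    (hab : (a * b).trace = s ^ 2 - c) (e0 e1 e2 e3 : R) :
    (comb a b e0 e1 e2 e3).trace = 2 * e0 + s * e1 + s * e2 + (s ^ 2 - c) * e3 := by
  unfold comb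
  rw [trace_add, trace_add, trace_add, trace_smul, trace_smul, trace_smul, trace_smul, ha, hb,
    hab, trace_one]
  simp only [Fintype.card_fin, smul_eq_mul]
  push_cast
  ring

/-- The trace of the word in characteristic `2`, as a polynomial in `s = tr a = tr b` and
`c = s ^ 2 - tr (a b)`. -/
lemma trace_word (h2 : (2 : R) = 0) (a b : Matrix (Fin 2) (Fin 2) R) (s c : R)
    (ha : a.trace = s) (hb : b.trace = s) (hab : (a * b).trace = s ^ 2 - c)
    (haa : a * a = s • a - 1) (hbb : b * b = s • b - 1)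
    (hba : b * a = -(a * b) + s • a + s • b - c • 1) :
    (a ^ 6 * b ^ 2 * a ^ 2 * b ^ 3 * a * b).trace =
      (s ^ 5 + s ^ 3 * c + s ^ 3 + s * c + s) ^ 3 + (s ^ 5 + s ^ 3 * c + s ^ 3 + s * c + s) := by
  have k1 : comb a b (1) (0) (0) (0) * a =
      comb a b (0) (1) (0) (0) := by
    rw [comb_mul_a haa hba]
    congr 1
    · linear_combination (0) * h2
    · linear_combination (0) * h2
    · linear_combination (0) * h2
    · linear_combination (0) * h2
  have k2 : comb a b (0) (1) (0) (0) * a =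
      comb a b (1) (s) (0) (0) := by
    rw [comb_mul_a haa hba]
    congr 1
    · linear_combination (-1) * h2
    · linear_combination (0) * h2
    · linear_combination (0) * h2
    · linear_combination (0) * h2
  have k3 : comb a b (1) (s) (0) (0) * a =
      comb a b (s) (s^2 + 1) (0) (0) := by
    rw [comb_mul_a haa hba]
    congr 1
    · linear_combination (-s) * h2
    · linear_combination (0) * h2
    · linear_combination (0) * h2
    · linear_combination (0) * h2
  have k4 : comb a b (s) (s^2 + 1) (0) (0) * a =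
      comb a b (s^2 + 1) (s^3) (0) (0) := by
    rw [comb_mul_a haa hba]
    congr 1
    · linear_combination (-s^2 - 1) * h2
    · linear_combination (s) * h2
    · linear_combination (0) * h2
    · linear_combination (0) * h2
  have k5 : comb a b (s^2 + 1) (s^3) (0) (0) * a =
      comb a b (s^3) (s^4 + s^2 + 1) (0) (0) := by
    rw [comb_mul_a haa hba]
    congr 1
    · linear_combination (-s^3) * h2
    · linear_combination (0) * h2
    · linear_combination (0) * h2
    · linear_combination (0) * h2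
  have k6 : comb a b (s^3) (s^4 + s^2 + 1) (0) (0) * a =
      comb a b (s^4 + s^2 + 1) (s^5 + s) (0) (0) := by
    rw [comb_mul_a haa hba]
    congr 1
    · linear_combination (-s^4 - s^2 - 1) * h2
    · linear_combination (s^3) * h2
    · linear_combination (0) * h2
    · linear_combination (0) * h2
  have k7 : comb a b (s^4 + s^2 + 1) (s^5 + s) (0) (0) * b =
      comb a b (0) (0) (s^4 + s^2 + 1) (s^5 + s) := by
    rw [comb_mul_b hbb]
    congr 1
    · linear_combination (0) * h2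
    · linear_combination (0) * h2
    · linear_combination (0) * h2
    · linear_combination (0) * h2
  have k8 : comb a b (0) (0) (s^4 + s^2 + 1) (s^5 + s) * b =
      comb a b (s^4 + s^2 + 1) (s^5 + s) (s^5 + s^3 + s) (s^6 + s^2) := by
    rw [comb_mul_b hbb]
    congr 1
    · linear_combination (-s^4 - s^2 - 1) * h2
    · linear_combination (-s^5 - s) * h2
    · linear_combination (0) * h2
    · linear_combination (0) * h2
  have k9 : comb a b (s^4 + s^2 + 1) (s^5 + s) (s^5 + s^3 + s) (s^6 + s^2) * a =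
      comb a b (s^7 + s^5*c + s^5 + s^3*c + s^3 + s*c + s) (s^8 + s^6*c + s^4 + s^2*c + s^2 + 1) (s^4) (s^5 + s^3 + s) := by
    rw [comb_mul_a haa hba]
    congr 1
    · linear_combination (-s^7 - s^5*c - s^5 - s^3*c - s^3 - s*c - s) * h2
    · linear_combination (-s^6*c + s^6 + s^4 - s^2*c + s^2) * h2
    · linear_combination (s^6 + s^2) * h2
    · linear_combination (-s^5 - s^3 - s) * h2
  have k10 : comb a b (s^7 + s^5*c + s^5 + s^3*c + s^3 + s*c + s) (s^8 + s^6*c + s^4 + s^2*c + s^2 + 1) (s^4) (s^5 + s^3 + s) * a =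
      comb a b (s^8 + s^6*c + s^6 + s^4*c + s^2*c + 1) (s^9 + s^7*c + s^3*c + s^3) (s^3 + s) (s^4) := by
    rw [comb_mul_a haa hba]
    congr 1
    · linear_combination (-s^8 - s^6*c - s^6 - s^4*c - s^4 - s^2*c - s^2 - 1) * h2
    · linear_combination (s^7 + 2*s^5 + s^3 + s) * h2
    · linear_combination (s^5) * h2
    · linear_combination (-s^4) * h2
  have k11 : comb a b (s^8 + s^6*c + s^6 + s^4*c + s^2*c + 1) (s^9 + s^7*c + s^3*c + s^3) (s^3 + s) (s^4) * b =
      comb a b (s^3 + s) (s^4) (s^8 + s^6*c + s^6 + s^4*c + s^4 + s^2*c + s^2 + 1) (s^9 + s^7*c + s^5 + s^3*c + s^3) := by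
    rw [comb_mul_b hbb]
    congr 1
    · linear_combination (-s^3 - s) * h2
    · linear_combination (-s^4) * h2
    · linear_combination (0) * h2
    · linear_combination (0) * h2
  have k12 : comb a b (s^3 + s) (s^4) (s^8 + s^6*c + s^6 + s^4*c + s^4 + s^2*c + s^2 + 1) (s^9 + s^7*c + s^5 + s^3*c + s^3) * b =
      comb a b (s^8 + s^6*c + s^6 + s^4*c + s^4 + s^2*c + s^2 + 1) (s^9 + s^7*c + s^5 + s^3*c + s^3) (s^9 + s^7*c + s^7 + s^5*c + s^5 + s^3*c) (s^10 + s^8*c + s^6 + s^4*c) := by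
    rw [comb_mul_b hbb]
    congr 1
    · linear_combination (-s^8 - s^6*c - s^6 - s^4*c - s^4 - s^2*c - s^2 - 1) * h2
    · linear_combination (-s^9 - s^7*c - s^5 - s^3*c - s^3) * h2
    · linear_combination (s^3 + s) * h2
    · linear_combination (s^4) * h2
  have k13 : comb a b (s^8 + s^6*c + s^6 + s^4*c + s^4 + s^2*c + s^2 + 1) (s^9 + s^7*c + s^5 + s^3*c + s^3) (s^9 + s^7*c + s^7 + s^5*c + s^5 + s^3*c) (s^10 + s^8*c + s^6 + s^4*c) * b =
      comb a b (s^9 + s^7*c + s^7 + s^5*c + s^5 + s^3*c) (s^10 + s^8*c + s^6 + s^4*c) (s^10 + s^8*c + s^4 + s^2*c + s^2 + 1) (s^11 + s^9*c + s^9 + s^7*c + s^7 + s^5*c + s^5 + s^3*c + s^3) := by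
    rw [comb_mul_b hbb]
    congr 1
    · linear_combination (-s^9 - s^7*c - s^7 - s^5*c - s^5 - s^3*c) * h2
    · linear_combination (-s^10 - s^8*c - s^6 - s^4*c) * h2
    · linear_combination (s^8 + s^6*c + s^6 + s^4*c) * h2
    · linear_combination (0) * h2
  have k14 : comb a b (s^9 + s^7*c + s^7 + s^5*c + s^5 + s^3*c) (s^10 + s^8*c + s^6 + s^4*c) (s^10 + s^8*c + s^4 + s^2*c + s^2 + 1) (s^11 + s^9*c + s^9 + s^7*c + s^7 + s^5*c + s^5 + s^3*c + s^3) * a =
      comb a b (s^12 + s^8*c^2 + s^8 + s^6*c + s^4*c + s^4 + s^2*c^2 + s^2*c + c) (s^13 + s^11 + s^9*c^2 + s^7*c^2 + s^7*c + s^7 + s^5*c^2 + s^5 + s^3*c^2 + s^3*c + s^3 + s) (s^9 + s^7*c + s^7 + s^5*c + s) (s^10 + s^8*c + s^4 + s^2*c + s^2 + 1) := by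
    rw [comb_mul_a haa hba]
    congr 1
    · linear_combination (-s^12 - s^10*c - s^10 - s^8*c^2 - s^8*c - s^8 - s^6*c - s^6 - 2*s^4*c - s^4 - s^2*c^2 - s^2*c - c) * h2
    · linear_combination (s^11 - s^9*c^2 + s^9*c + s^9 - s^7*c^2 + s^7 - s^5*c^2 + s^5*c + s^5 - s^3*c^2) * h2
    · linear_combination (s^11 + s^9*c + s^5 + s^3*c + s^3) * h2
    · linear_combination (-s^10 - s^8*c - s^4 - s^2*c - s^2 - 1) * h2
  have k15 : comb a b (s^12 + s^8*c^2 + s^8 + s^6*c + s^4*c + s^4 + s^2*c^2 + s^2*c + c) (s^13 + s^11 + s^9*c^2 + s^7*c^2 + s^7*c + s^7 + s^5*c^2 + s^5 + s^3*c^2 + s^3*c + s^3 + s) (s^9 + s^7*c + s^7 + s^5*c + s) (s^10 + s^8*c + s^4 + s^2*c + s^2 + 1) * b =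
      comb a b (s^9 + s^7*c + s^7 + s^5*c + s) (s^10 + s^8*c + s^4 + s^2*c + s^2 + 1) (s^12 + s^10 + s^8*c^2 + s^8*c + s^4*c + s^4 + s^2*c^2 + s^2*c + s^2 + c) (s^13 + s^9*c^2 + s^9*c + s^7*c^2 + s^7*c + s^7 + s^5*c^2 + s^3*c^2) := by
    rw [comb_mul_b hbb]
    congr 1
    · linear_combination (-s^9 - s^7*c - s^7 - s^5*c - s) * h2
    · linear_combination (-s^10 - s^8*c - s^4 - s^2*c - s^2 - 1) * h2
    · linear_combination (s^8 + s^6*c) * h2
    · linear_combination (s^11 + s^5 + s^3*c + s^3 + s) * h2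
  have h0 : (1 : Matrix (Fin 2) (Fin 2) R) = comb a b 1 0 0 0 := by
    unfold comb; module
  have key : a ^ 6 * b ^ 2 * a ^ 2 * b ^ 3 * a * b =
      comb a b (s^9 + s^7*c + s^7 + s^5*c + s) (s^10 + s^8*c + s^4 + s^2*c + s^2 + 1) (s^12 + s^10 + s^8*c^2 + s^8*c + s^4*c + s^4 + s^2*c^2 + s^2*c + s^2 + c) (s^13 + s^9*c^2 + s^9*c + s^7*c^2 + s^7*c + s^7 + s^5*c^2 + s^3*c^2) := by
    have e : a ^ 6 * b ^ 2 * a ^ 2 * b ^ 3 * a * b =
      1 * a * a * a * a * a * a * b * b * a * a * b * b * b * a * b := by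
      simp only [pow_succ, pow_zero, one_mul, mul_assoc]
    rw [e, h0, k1, k2, k3, k4, k5, k6, k7, k8, k9, k10, k11, k12, k13, k14, k15]
  rw [key, trace_comb a b s c ha hb hab]
  linear_combination (-2*s^13*c - s^13 - s^11*c^2 - 4*s^11*c - 2*s^11 - s^9*c^3 - 4*s^9*c^2 - 6*s^9*c - 2*s^9 - 2*s^7*c^3 - 6*s^7*c^2 - 7*s^7*c - 2*s^7 - 2*s^5*c^3 - 4*s^5*c^2 - 3*s^5*c - s^5 - s^3*c^3 - s^3*c^2 - s^3*c + s) * h2

end algebra

section word

/-- The value of the word `x⁶ b² x² b³ x b`, `b = y x y⁻¹`, at a pair of group elements. -/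
def wordVal {G : Type*} [Group G] (x y : G) : G :=
  x ^ 6 * (y * x * y⁻¹) ^ 2 * x ^ 2 * (y * x * y⁻¹) ^ 3 * x * (y * x * y⁻¹)

/-- The word itself, as an element of the free group. -/
def wrd : FreeGroup (Fin 2) := wordVal (FreeGroup.of 0) (FreeGroup.of 1)

lemma map_wordVal {G H : Type*} [Group G] [Group H] (φ : G →* H) (x y : G) :
    φ (wordVal x y) = wordVal (φ x) (φ y) := by
  simp only [wordVal, map_mul, map_pow, map_inv]

lemma lift_wrd {G : Type*} [Group G] (x y : G) : FreeGroup.lift ![x, y] wrd = wordVal x y := by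
  rw [wrd, map_wordVal]
  simp

/-- `wrd` is not a proper power. -/
lemma not_pow_wrd (v : FreeGroup (Fin 2)) (k : ℕ) (hk : 2 ≤ k) : v ^ k ≠ wrd := by
  intro h
  -- the exponent sum of `x` in `wrd` is `15`, so `k ∣ 15`
  let φ : FreeGroup (Fin 2) →* Multiplicative ℤ :=
    FreeGroup.lift ![Multiplicative.ofAdd 1, 1]
  have h1 : φ (v ^ k) = Multiplicative.ofAdd 15 := by
    rw [h]
    change FreeGroup.lift ![Multiplicative.ofAdd 1, 1] wrd = _
    rw [lift_wrd]
    rfl
  have h2 : (k : ℤ) * Multiplicative.toAdd (φ v) = 15 := by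
    rw [map_pow] at h1
    have := congrArg Multiplicative.toAdd h1
    rw [toAdd_pow, toAdd_ofAdd, nsmul_eq_mul] at this
    exact this
  have hd : k ∣ 15 := by
    have hd : (k : ℤ) ∣ 15 := ⟨_, h2.symm⟩
    exact_mod_cast hd
  have h3 : 3 ∣ k ∨ 5 ∣ k := by
    have hle : k ≤ 15 := Nat.le_of_dvd (by norm_num) hd
    interval_cases k <;> omega
  rcases h3 with ⟨j, rfl⟩ | ⟨j, rfl⟩
  · -- a value in `S₅` that is not a cube
    let X : Equiv.Perm (Fin 5) := c[0, 1] * c[2, 3, 4]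
    let Y : Equiv.Perm (Fin 5) := c[0, 2] * c[1, 3]
    have h4 : (FreeGroup.lift ![X, Y] (v ^ j)) ^ 3 = wordVal X Y := by
      rw [← map_pow, ← pow_mul, mul_comm j 3, h, lift_wrd]
    have h5 : ∀ σ : Equiv.Perm (Fin 5), σ ^ 3 ≠ wordVal X Y := by decide +kernel
    exact h5 _ h4
  · -- a value in `S₅` that is not a fifth power
    let X : Equiv.Perm (Fin 5) := c[0, 1, 2, 3, 4]
    let Y : Equiv.Perm (Fin 5) := c[2, 3, 4]
    have h4 : (FreeGroup.lift ![X, Y] (v ^ j)) ^ 5 = wordVal X Y := by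
      rw [← map_pow, ← pow_mul, mul_comm j 5, h, lift_wrd]
    have h5 : ∀ σ : Equiv.Perm (Fin 5), σ ^ 5 ≠ wordVal X Y := by decide +kernel
    exact h5 _ h4

end word

section special

variable {F : Type*} [Field F]

/-- The trace of the value of the word on `SL(2, F)`, `F` of characteristic `2`. -/
lemma trace_wordVal (h2 : (2 : F) = 0) (X Y : Matrix.SpecialLinearGroup (Fin 2) F) :
    ∃ g : F, ((wordVal X Y : Matrix.SpecialLinearGroup (Fin 2) F) :
      Matrix (Fin 2) (Fin 2) F).trace = g ^ 3 + g := by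
  set B : Matrix.SpecialLinearGroup (Fin 2) F := Y * X * Y⁻¹ with hB
  set a : Matrix (Fin 2) (Fin 2) F := (X : Matrix (Fin 2) (Fin 2) F) with ha
  set b : Matrix (Fin 2) (Fin 2) F := (B : Matrix (Fin 2) (Fin 2) F) with hb
  have hda : a 0 0 * a 1 1 - a 0 1 * a 1 0 = 1 := by
    have := X.det_coe
    rwa [Matrix.det_fin_two] at this
  have hdb : b 0 0 * b 1 1 - b 0 1 * b 1 0 = 1 := by
    have := B.det_coe
    rwa [Matrix.det_fin_two] at this
  have htb : b.trace = a.trace := by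
    have h1 : b = (Y : Matrix (Fin 2) (Fin 2) F) * a *
        ((Y⁻¹ : Matrix.SpecialLinearGroup (Fin 2) F) : Matrix (Fin 2) (Fin 2) F) := by
      rw [hb, hB, Matrix.SpecialLinearGroup.coe_mul, Matrix.SpecialLinearGroup.coe_mul]
    rw [h1, Matrix.trace_mul_comm, ← mul_assoc, ← Matrix.SpecialLinearGroup.coe_mul,
      inv_mul_cancel, Matrix.SpecialLinearGroup.coe_one, one_mul]
  have hta : a.trace = a 0 0 + a 1 1 := Matrix.trace_fin_two a
  have htb' : b 0 0 + b 1 1 = a 0 0 + a 1 1 := by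
    rw [← Matrix.trace_fin_two b, htb, hta]
  set s : F := a 0 0 + a 1 1 with hs
  have haa : a * a = s • a - 1 := by
    ext i j
    fin_cases i <;> fin_cases j <;> simp [Matrix.mul_apply, Fin.sum_univ_two, hs]
    · linear_combination -hda
    · ring
    · ring
    · linear_combination -hda
  have hbb : b * b = s • b - 1 := by
    ext i j
    fin_cases i <;> fin_cases j <;> simp [Matrix.mul_apply, Fin.sum_univ_two, ← htb']
    · linear_combination -hdb
    · ring
    · ring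
    · linear_combination -hdb
  have hba : b * a = -(a * b) + s • a + s • b - (s ^ 2 - (a * b).trace) • 1 := by
    have e1 : b 1 1 = a 0 0 + a 1 1 - b 0 0 := by linear_combination htb'
    ext i j
    fin_cases i <;> fin_cases j <;>
      simp [Matrix.mul_apply, Fin.sum_univ_two, hs, Matrix.trace_fin_two, e1] <;> ring
  have key := trace_word h2 a b s (s ^ 2 - (a * b).trace) hta (by rw [htb, hta]) (by ring) haa
    hbb hba
  refine ⟨s ^ 5 + s ^ 3 * (s ^ 2 - (a * b).trace) + s ^ 3 + s * (s ^ 2 - (a * b).trace) + s, ?_⟩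
  have e : wordVal X Y = X ^ 6 * B ^ 2 * X ^ 2 * B ^ 3 * X * B := rfl
  rw [e]
  simp only [Matrix.SpecialLinearGroup.coe_mul, Matrix.SpecialLinearGroup.coe_pow]
  exact key

end special

section field

variable {F : Type*} [Field F] {n : ℕ}

lemma two_eq_zero (hF : Nat.card F = 2 ^ n) : (2 : F) = 0 := by
  have hfin : Finite F := Nat.finite_of_card_ne_zero (by rw [hF]; positivity)
  have := Fintype.ofFinite F
  have h : ((Nat.card F : ℕ) : F) = 0 := by
    rw [Nat.card_eq_fintype_card]; exact Nat.cast_card_eq_zero F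
  rw [hF] at h
  push_cast at h
  have hn0 : n ≠ 0 := by
    rintro rfl
    simp at h
  exact (pow_eq_zero_iff hn0).1 h

lemma coprime_seven (hn : ¬ 3 ∣ n) : Nat.Coprime 7 (2 ^ n - 1) := by
  rw [Nat.Prime.coprime_iff_not_dvd (by norm_num)]
  intro h
  have h1 : 1 ≤ 2 ^ n := Nat.one_le_two_pow
  have h7 : 2 ^ n % 7 = 1 := by omega
  have h8 : 2 ^ n % 7 = 2 ^ (n % 3) % 7 := by
    conv_lhs => rw [← Nat.div_add_mod n 3, pow_add, pow_mul]
    rw [Nat.mul_mod, Nat.pow_mod]
    simp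
  rw [h8] at h7
  have h9 : n % 3 = 1 ∨ n % 3 = 2 := by omega
  rcases h9 with h9 | h9 <;> rw [h9] at h7 <;> simp at h7

lemma no_root (hn : ¬ 3 ∣ n) (hF : Nat.card F = 2 ^ n) (θ : F) : θ ^ 3 + θ + 1 ≠ 0 := by
  intro h
  have h2 := two_eq_zero hF
  have hfin : Finite F := Nat.finite_of_card_ne_zero (by rw [hF]; positivity)
  have := Fintype.ofFinite F
  have h0 : θ ≠ 0 := by
    rintro rfl
    simp at h
  have h7 : θ ^ 7 = 1 := by
    linear_combination (θ ^ 4 - θ ^ 2 - θ + 1) * h + (θ ^ 2 - 1) * h2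
  have hc : θ ^ (2 ^ n - 1) = 1 := by
    rw [← hF, Nat.card_eq_fintype_card]
    exact FiniteField.pow_card_sub_one_eq_one θ h0
  have h1 : θ = 1 := by
    have h := pow_gcd_eq_one.2 ⟨h7, hc⟩
    rwa [coprime_seven hn, pow_one] at h
  rw [h1] at h
  have : (1 : F) = 0 := by linear_combination h - h2
  exact one_ne_zero this

/-- No value of the word has trace `1` over a field with `2 ^ n` elements, `3 ∤ n`. -/
lemma trace_ne_one (hn : ¬ 3 ∣ n) (hF : Nat.card F = 2 ^ n)
    (X Y : Matrix.SpecialLinearGroup (Fin 2) F) :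
    ((wordVal X Y : Matrix.SpecialLinearGroup (Fin 2) F) :
      Matrix (Fin 2) (Fin 2) F).trace ≠ 1 := by
  obtain ⟨θ, hθ⟩ := trace_wordVal (two_eq_zero hF) X Y
  intro h
  rw [h] at hθ
  exact no_root hn hF θ (by linear_combination -hθ + two_eq_zero hF)

end field

end Pool.Agent.H492R3.PW
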